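import Mathlib

set_option autoImplicit false

/-!
# The difference of the twists of a bounding pair

Linear algebra of the operator `D = ρ e - ρ e'`, where `e` and `e'` commute with each other and with
a subgroup `L` and satisfy the braid relation with `b`.
-/

namespace Pool.MP_59b15d_al.H95E

open Module

variable {F V Γ : Type*} [Field F] [AddCommGroup V] [Module F V] [Group Γ]

/-- The vectors fixed by a subgroup. -/
def Fx (ρ : Γ →* Module.End F V) (H : Subgroup Γ) : Submodule F V where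
  carrier := {v | ∀ x ∈ H, ρ x v = v}
  add_mem' := by
    intro v w hv hw x hx
    rw [map_add, hv x hx, hw x hx]
  zero_mem' := fun x _ => map_zero _
  smul_mem' := by
    intro c v hv x hx
    rw [map_smul, hv x hx]

theorem mem_Fx {ρ : Γ →* Module.End F V} {H : Subgroup Γ} {v : V} :
    v ∈ Fx ρ H ↔ ∀ x ∈ H, ρ x v = v := Iff.rfl

theorem Fx_anti (ρ : Γ →* Module.End F V) {H K : Subgroup Γ} (h : H ≤ K) : Fx ρ K ≤ Fx ρ H :=
  fun _ hv x hx => hv x (h hx)

/-- The stabiliser of a vector. -/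
def Stb (ρ : Γ →* Module.End F V) (v : V) : Subgroup Γ where
  carrier := {x | ρ x v = v}
  one_mem' := by
    change ρ 1 v = v
    rw [map_one]
    rfl
  mul_mem' := by
    intro x y hx hy
    change ρ (x * y) v = v
    have hx' : ρ x v = v := hx
    have hy' : ρ y v = v := hy
    rw [map_mul, Module.End.mul_apply, hy', hx']
  inv_mem' := by
    intro x hx
    change ρ x⁻¹ v = v
    have hx' : ρ x v = v := hx
    calc ρ x⁻¹ v = ρ x⁻¹ (ρ x v) := by rw [hx']
      _ = v := by rw [← Module.End.mul_apply, ← map_mul, inv_mul_cancel, map_one]; rfl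

theorem mem_Stb {ρ : Γ →* Module.End F V} {v : V} {x : Γ} : x ∈ Stb ρ v ↔ ρ x v = v := Iff.rfl

theorem mem_Fx_iff {ρ : Γ →* Module.End F V} {H : Subgroup Γ} {v : V} :
    v ∈ Fx ρ H ↔ H ≤ Stb ρ v := Iff.rfl

/-- It suffices to look at generators. -/
theorem mem_Fx_closure {ρ : Γ →* Module.End F V} {S : Set Γ} {v : V} :
    v ∈ Fx ρ (Subgroup.closure S) ↔ ∀ x ∈ S, ρ x v = v := by
  rw [mem_Fx_iff, Subgroup.closure_le]
  exact Iff.rfl

theorem rho_mul (ρ : Γ →* Module.End F V) (x y : Γ) (v : V) : ρ (x * y) v = ρ x (ρ y v) := by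
  rw [map_mul]
  rfl

theorem rho_one (ρ : Γ →* Module.End F V) (v : V) : ρ 1 v = v := by
  rw [map_one]
  rfl

theorem rho_inv (ρ : Γ →* Module.End F V) (x : Γ) (v : V) : ρ x⁻¹ (ρ x v) = v := by
  rw [← rho_mul, inv_mul_cancel, rho_one]

theorem rho_inv' (ρ : Γ →* Module.End F V) (x : Γ) (v : V) : ρ x (ρ x⁻¹ v) = v := by
  rw [← rho_mul, mul_inv_cancel, rho_one]

theorem rho_inj (ρ : Γ →* Module.End F V) (x : Γ) : Function.Injective (ρ x) :=
  Function.LeftInverse.injective (rho_inv ρ x)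

/-- A finite dimensional subspace mapped into itself by `x` is mapped into itself by the inverse
of `x`. -/
theorem inv_stable [FiniteDimensional F V] (ρ : Γ →* Module.End F V) {x : Γ} {Q : Submodule F V}
    (h : ∀ v ∈ Q, ρ x v ∈ Q) : ∀ v ∈ Q, ρ x⁻¹ v ∈ Q := by
  intro v hv
  have h1 : Q.map (ρ x) ≤ Q := by
    rintro _ ⟨w, hw, rfl⟩
    exact h w hw
  have h2 : Q.map (ρ x) = Q := by
    apply Submodule.eq_of_le_of_finrank_le h1
    exact (LinearEquiv.finrank_eq (Submodule.equivMapOfInjective (ρ x) (rho_inj ρ x) Q)).le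
  rw [← h2] at hv
  obtain ⟨w, hw, rfl⟩ := hv
  rw [rho_inv]
  exact hw

/-- A subspace stable under a set of generators is stable. -/
theorem stable_closure [FiniteDimensional F V] (ρ : Γ →* Module.End F V) {S : Set Γ}
    {Q : Submodule F V} (h : ∀ x ∈ S, ∀ v ∈ Q, ρ x v ∈ Q) :
    ∀ x ∈ Subgroup.closure S, ∀ v ∈ Q, ρ x v ∈ Q := by
  intro x hx
  induction hx using Subgroup.closure_induction with
  | mem x hx => exact h x hx
  | one => intro v hv; rwa [rho_one]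
  | mul x y _ _ hx hy => intro v hv; rw [rho_mul]; exact hx _ (hy v hv)
  | inv x _ hx => exact inv_stable ρ hx

section sec2

variable (ρ : Γ →* Module.End F V) {e e' b s : Γ} {L H : Subgroup Γ}
  {U : Submodule F V}

/-- The data: `e` and `e'` commute with each other and with `L`, they satisfy the braid relation
with `b`, `s ∈ L` does too, `H` is generated by `L` and `b` and contains `e` and `e'`, the subspace
`U` is stable under `H` and `D = ρ e - ρ e'` vanishes on all `ρ l v - v`, `l ∈ L`, `v ∈ U`. -/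
structure BPair (ρ : Γ →* Module.End F V) (e e' b s : Γ) (L H : Subgroup Γ) (U : Submodule F V) :
    Prop where
  cee : e * e' = e' * e
  ceL : ∀ l ∈ L, e * l = l * e
  ceL' : ∀ l ∈ L, e' * l = l * e'
  br : e * b * e = b * e * b
  br' : e' * b * e' = b * e' * b
  hs : s ∈ L
  brs : s * b * s = b * s * b
  hH : Subgroup.closure ((L : Set Γ) ∪ {b}) = H
  he : e ∈ H
  he' : e' ∈ H
  hU : ∀ x ∈ H, ∀ v ∈ U, ρ x v ∈ U
  hD : ∀ l ∈ L, ∀ v ∈ U, (ρ e - ρ e') (ρ l v - v) = 0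

variable {ρ}

theorem BPair.LH (B : BPair ρ e e' b s L H U) : L ≤ H := by
  rw [← B.hH]
  exact fun x hx => Subgroup.subset_closure (Or.inl hx)

theorem BPair.bH (B : BPair ρ e e' b s L H U) : b ∈ H := by
  rw [← B.hH]
  exact Subgroup.subset_closure (Or.inr rfl)

theorem D_apply (v : V) : (ρ e - ρ e') v = ρ e v - ρ e' v := rfl

/-- `D` commutes with what commutes with `e` and `e'`. -/
theorem D_comm {x : Γ} (h1 : e * x = x * e) (h2 : e' * x = x * e') (v : V) :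
    (ρ e - ρ e') (ρ x v) = ρ x ((ρ e - ρ e') v) := by
  rw [D_apply, D_apply, map_sub, ← rho_mul, ← rho_mul, ← rho_mul, ← rho_mul, h1, h2]

theorem BPair.D_L (B : BPair ρ e e' b s L H U) {l : Γ} (hl : l ∈ L) {v : V} (hv : v ∈ U) :
    (ρ e - ρ e') (ρ l v) = (ρ e - ρ e') v := by
  have h1 := B.hD l hl v hv
  rwa [map_sub, sub_eq_zero] at h1

theorem BPair.fix_L (B : BPair ρ e e' b s L H U) {l : Γ} (hl : l ∈ L) {v : V} (hv : v ∈ U) :
    ρ l ((ρ e - ρ e') v) = (ρ e - ρ e') v := by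
  rw [← D_comm (B.ceL l hl) (B.ceL' l hl), B.D_L hl hv]

theorem BPair.D_U (B : BPair ρ e e' b s L H U) {v : V} (hv : v ∈ U) : (ρ e - ρ e') v ∈ U :=
  U.sub_mem (B.hU e B.he v hv) (B.hU e' B.he' v hv)

/-- The identity `b D b = D b e + e' b D`. -/
theorem BPair.ident (B : BPair ρ e e' b s L H U) (v : V) :
    ρ b ((ρ e - ρ e') (ρ b v)) =
      (ρ e - ρ e') (ρ b (ρ e v)) + ρ e' (ρ b ((ρ e - ρ e') v)) := by
  have h1 : ρ b (ρ e (ρ b v)) = ρ e (ρ b (ρ e v)) := by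
    rw [← rho_mul, ← rho_mul, ← rho_mul, ← rho_mul, ← B.br]
  have h2 : ρ b (ρ e' (ρ b v)) = ρ e' (ρ b (ρ e' v)) := by
    rw [← rho_mul, ← rho_mul, ← rho_mul, ← rho_mul, ← B.br']
  simp only [D_apply, map_sub]
  rw [h1, h2]
  abel

/-- The subspace of the `v ∈ U` such that `D v` is fixed by `H`. -/
def QQ (ρ : Γ →* Module.End F V) (e e' : Γ) (H : Subgroup Γ) (U : Submodule F V) :
    Submodule F V := U ⊓ (Fx ρ H).comap (ρ e - ρ e')

theorem mem_QQ {v : V} : v ∈ QQ ρ e e' H U ↔ v ∈ U ∧ (ρ e - ρ e') v ∈ Fx ρ H := Iff.rfl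

theorem BPair.Q_L (B : BPair ρ e e' b s L H U) {l : Γ} (hl : l ∈ L) {v : V}
    (hv : v ∈ QQ ρ e e' H U) : ρ l v ∈ QQ ρ e e' H U := by
  refine ⟨B.hU l (B.LH hl) v hv.1, ?_⟩
  change (ρ e - ρ e') (ρ l v) ∈ Fx ρ H
  rw [B.D_L hl hv.1]
  exact hv.2

theorem BPair.Q_e (B : BPair ρ e e' b s L H U) {v : V} (hv : v ∈ QQ ρ e e' H U) :
    ρ e v ∈ QQ ρ e e' H U := by
  refine ⟨B.hU e B.he v hv.1, ?_⟩
  change (ρ e - ρ e') (ρ e v) ∈ Fx ρ H
  rw [D_comm rfl B.cee.symm]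
  have h1 : ρ e ((ρ e - ρ e') v) = (ρ e - ρ e') v := hv.2 e B.he
  rw [h1]
  exact hv.2

/-- The main step: `D b v` is fixed by `H` if `D v` is. -/
theorem BPair.key (B : BPair ρ e e' b s L H U) {v : V} (hv : v ∈ QQ ρ e e' H U) :
    (ρ e - ρ e') (ρ b v) ∈ Fx ρ H := by
  have hbv : ρ b v ∈ U := B.hU b B.bH v hv.1
  have hev : ρ e v ∈ U := B.hU e B.he v hv.1
  have hbev : ρ b (ρ e v) ∈ U := B.hU b B.bH _ hev
  have hDv : (ρ e - ρ e') v ∈ Fx ρ H := hv.2
  -- `u = b D b v` is fixed by `L`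
  have hu : ∀ l ∈ L, ρ l (ρ b ((ρ e - ρ e') (ρ b v))) = ρ b ((ρ e - ρ e') (ρ b v)) := by
    intro l hl
    have h1 : ρ e' (ρ b ((ρ e - ρ e') v)) = (ρ e - ρ e') v := by
      rw [hDv b B.bH, hDv e' B.he']
    rw [B.ident, h1, map_add, B.fix_L hl hbev, hDv l (B.LH hl)]
  -- `x = D b v` is fixed by `s` and by `b⁻¹ s b`
  have hx1 : ρ s ((ρ e - ρ e') (ρ b v)) = (ρ e - ρ e') (ρ b v) := B.fix_L B.hs hbv
  have hx2 := hu s B.hs
  have hx3 : ρ b ((ρ e - ρ e') (ρ b v)) = (ρ e - ρ e') (ρ b v) := by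
    apply rho_inj ρ b
    have h1 : ρ (s * b * s) ((ρ e - ρ e') (ρ b v)) = ρ (b * s * b) ((ρ e - ρ e') (ρ b v)) := by
      rw [B.brs]
    rw [rho_mul, rho_mul, rho_mul, rho_mul, hx1, hx2] at h1
    exact h1.symm
  have hmem : Subgroup.closure ((L : Set Γ) ∪ {b}) ≤ Stb ρ ((ρ e - ρ e') (ρ b v)) := by
    rw [Subgroup.closure_le]
    rintro x (hx | hx)
    · exact B.fix_L hx hbv
    · rw [Set.mem_singleton_iff] at hx
      subst hx
      exact hx3
  rw [B.hH] at hmem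
  exact hmem

theorem BPair.D_bU (B : BPair ρ e e' b s L H U) {v : V} (hv : v ∈ QQ ρ e e' H U) :
    ρ b v ∈ QQ ρ e e' H U :=
  ⟨B.hU b B.bH v hv.1, B.key hv⟩

variable [FiniteDimensional F V]

theorem BPair.Q_H (B : BPair ρ e e' b s L H U) :
    ∀ x ∈ H, ∀ v ∈ QQ ρ e e' H U, ρ x v ∈ QQ ρ e e' H U := by
  rw [← B.hH]
  apply stable_closure
  rw [B.hH]
  rintro x (hx | hx) v hv
  · exact B.Q_L hx hv
  · rw [Set.mem_singleton_iff] at hx
    subst hx
    exact B.D_bU hv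

/-- **The difference operator.** For `v ∈ U` the vector `D (b v - v)` is fixed by `H`. -/
theorem BPair.sec2 (B : BPair ρ e e' b s L H U) {v : V} (hv : v ∈ U) :
    (ρ e - ρ e') (ρ b v - v) ∈ Fx ρ H := by
  have hsH : s ∈ H := B.LH B.hs
  have hbH := B.bH
  -- `b = g s g⁻¹` with `g = s b`
  have hg : s * b * s * (s * b)⁻¹ = b := by rw [B.brs]; group
  have hw : ρ (s * b)⁻¹ v ∈ U := B.hU _ (inv_mem (mul_mem hsH hbH)) v hv
  have h1 : ρ s (ρ (s * b)⁻¹ v) - ρ (s * b)⁻¹ v ∈ QQ ρ e e' H U := by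
    refine ⟨U.sub_mem (B.hU s hsH _ hw) hw, ?_⟩
    change (ρ e - ρ e') (ρ s (ρ (s * b)⁻¹ v) - ρ (s * b)⁻¹ v) ∈ Fx ρ H
    rw [B.hD s B.hs _ hw]
    exact (Fx ρ H).zero_mem
  have h2 := B.Q_H (s * b) (mul_mem hsH hbH) _ h1
  rw [map_sub, rho_inv', ← rho_mul, ← rho_mul, hg] at h2
  exact h2.2

omit [FiniteDimensional F V] in
theorem BPair.sec2U (B : BPair ρ e e' b s L H U) {v : V} (hv : v ∈ U) :
    (ρ e - ρ e') (ρ b v - v) ∈ U :=
  B.D_U (U.sub_mem (B.hU b B.bH v hv) hv)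

omit [FiniteDimensional F V] in
/-- If `D` is killed by `b - 1` on both sides, then `D v` is fixed by `H`. -/
theorem BPair.sec2e (B : BPair ρ e e' b s L H U)
    (h1 : ∀ v ∈ U, (ρ e - ρ e') (ρ b v - v) = 0)
    (h2 : ∀ v ∈ U, ρ b ((ρ e - ρ e') v) - (ρ e - ρ e') v = 0) {v : V} (hv : v ∈ U) :
    (ρ e - ρ e') v ∈ Fx ρ H := by
  rw [← B.hH, mem_Fx_closure]
  rintro x (hx | hx)
  · exact B.fix_L hx hv
  · rw [Set.mem_singleton_iff] at hx
    subst hx
    exact sub_eq_zero.1 (h2 v hv)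

/-- If there are no invariants in `U` and `U` is spanned by the `x v - v`, then `D = 0` on `U`. -/
theorem BPair.D_zero (B : BPair ρ e e' b s L H U) (h0 : ∀ v ∈ U, v ∈ Fx ρ H → v = 0)
    (h1 : U ≤ Submodule.span F {w | ∃ x ∈ H, ∃ v ∈ U, w = ρ x v - v}) {v : V} (hv : v ∈ U) :
    (ρ e - ρ e') v = 0 := by
  have hb : ∀ v ∈ U, (ρ e - ρ e') (ρ b v - v) = 0 := fun v hv => h0 _ (B.sec2U hv) (B.sec2 hv)
  -- the elements `x` such that `D (x v - v) = 0` for all `v ∈ U`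
  have h2 : ∀ x ∈ H, ∀ v ∈ U, (ρ e - ρ e') (ρ x v) = (ρ e - ρ e') v := by
    rw [← B.hH]
    intro x hx
    induction hx using Subgroup.closure_induction with
    | mem x hx =>
      rcases hx with hx | hx
      · exact fun v hv => B.D_L hx hv
      · rw [Set.mem_singleton_iff] at hx
        subst hx
        intro v hv
        have := hb v hv
        rwa [map_sub, sub_eq_zero] at this
    | one => intro v hv; rw [rho_one]
    | mul x y hx' hy' hx hy =>
      intro v hv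
      have hy2 : y ∈ H := by rw [← B.hH]; exact hy'
      rw [rho_mul, hx _ (B.hU y hy2 v hv), hy v hv]
    | inv x hx' hx =>
      intro v hv
      have hx2 : x ∈ H := by rw [← B.hH]; exact hx'
      have h3 := hx _ (B.hU x⁻¹ (inv_mem hx2) v hv)
      rw [rho_inv'] at h3
      exact h3.symm
  have h3 : Submodule.span F {w | ∃ x ∈ H, ∃ v ∈ U, w = ρ x v - v} ≤
      LinearMap.ker (ρ e - ρ e') := by
    rw [Submodule.span_le]
    rintro _ ⟨x, hx, v, hv, rfl⟩
    change (ρ e - ρ e') (ρ x v - v) = 0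
    rw [map_sub, h2 x hx v hv, sub_self]
  exact h3 (h1 hv)

end sec2

end Pool.MP_59b15d_al.H95E
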