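import Mathlib
import Pool.Agent.H.MP_59b15d_al.h93e.Mv

set_option autoImplicit false

/-!
# Front arcs
-/

namespace Pool.MP_59b15d_al.H95E

open Module Pool.MP_59b15d_al.H93E

variable {F V Γ : Type*} [Field F] [AddCommGroup V] [Module F V] [Group Γ]

/-- The twist joining the handles `l` and `l + n + 1` along the front arc. -/
def fa (C S : ℕ → Γ) (l : ℕ) : ℕ → Γ
  | 0 => C l
  | n + 1 => (S (l + n + 1))⁻¹ * fa C S l n * S (l + n + 1)

theorem fa_zero (C S : ℕ → Γ) (l : ℕ) : fa C S l 0 = C l := rfl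

theorem fa_succ (C S : ℕ → Γ) (l n : ℕ) :
    fa C S l (n + 1) = (S (l + n + 1))⁻¹ * fa C S l n * S (l + n + 1) := rfl

/-- The subspace `U` is fixed pointwise by the twists `A i` and by all front arcs, and it is
stable under the half turns of the handles. -/
structure Un (ρ : Γ →* Module.End F V) (A B C S : ℕ → Γ) (g : ℕ) (U : Submodule F V) : Prop where
  fA : ∀ i, A i ∈ fx ρ U
  fF : ∀ l n, l + n + 1 < g → fa C S l n ∈ fx ρ U
  sI : ∀ i, i < g → (A i * B i) ^ 3 ∈ sb ρ U

end Pool.MP_59b15d_al.H95E
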