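import Mathlib
import Pool.Agent.H.MP_59b15d_al.h93e.Lk
import Pool.Agent.H.MP_59b15d_al.h95e.Fa

set_option autoImplicit false

/-!
# Moving the cut handles to the end

`Uk K U`: the subspace `U` is fixed by all `A i`, all front arcs, all `B i` with `i ∉ K`, and it
satisfies the exactness condition at the handles of `K`. The sum of all such subspaces for
`K = {g - m, …, g - 1}` is exact in the sense of `Ex`.
-/

namespace Pool.MP_59b15d_al.H95E

open Module Pool.MP_59b15d_al.H93E

variable {F V Γ : Type*} [Field F] [AddCommGroup V] [Module F V] [Group Γ]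
  {ρ : Γ →* Module.End F V} {g : ℕ} {A B C S : ℕ → Γ}

/-- The class of the subspaces `Un` is stable under the exchanges. -/
def LemU (ρ : Γ →* Module.End F V) (A B C S : ℕ → Γ) (g : ℕ) : Prop :=
  ∀ U : Submodule F V, Un ρ A B C S g U → ∀ i, i + 1 < g →
    Un ρ A B C S g (mv ρ (S i) U) ∧ Un ρ A B C S g (mv ρ (S i)⁻¹ U)

/-- The subspace `U` is exact for the curves of the handles of `K`. -/
structure Uk (ρ : Γ →* Module.End F V) (A B C S : ℕ → Γ) (g : ℕ) (K : Finset ℕ)
    (U : Submodule F V) : Prop where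
  un : Un ρ A B C S g U
  fB : ∀ i, i < g → i ∉ K → B i ∈ fx ρ U
  ii : ∀ i ∈ K, i < g → ∀ w ∈ U, nn ρ (B i) w ∈ mv ρ (A i * B i) U

/-- The element `s` permutes the handles. -/
structure Cj (A B : ℕ → Γ) (s : Γ) (π : ℕ → ℕ) : Prop where
  hA : ∀ j, A j * s = s * A (π j)
  hB : ∀ j, B j * s = s * B (π j)

theorem cj_S (L : Lk g A B C S) {i : ℕ} (hi : i + 1 < g) : Cj A B (S i) (Equiv.swap i (i + 1)) := by
  constructor
  · intro j
    by_cases h1 : j = i
    · subst h1
      rw [Equiv.swap_apply_left, L.SA' _ hi]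
    · by_cases h2 : j = i + 1
      · subst h2
        rw [Equiv.swap_apply_right, L.SA _ hi]
      · rw [Equiv.swap_apply_of_ne_of_ne h1 h2]
        exact (L.SAo i j h1 h2).eq.symm
  · intro j
    by_cases h1 : j = i
    · subst h1
      rw [Equiv.swap_apply_left, L.SB' _ hi]
    · by_cases h2 : j = i + 1
      · subst h2
        rw [Equiv.swap_apply_right, L.SB _ hi]
      · rw [Equiv.swap_apply_of_ne_of_ne h1 h2]
        exact (L.SBo i j h1 h2).eq.symm

theorem Cj.symm {s : Γ} {π π' : ℕ → ℕ} (c : Cj A B s π) (h : ∀ j, π (π' j) = j) :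
    Cj A B s⁻¹ π' := by
  constructor
  · intro j
    have h1 := c.hA (π' j)
    rw [h j] at h1
    rw [eq_inv_mul_iff_mul_eq, ← mul_assoc, ← h1, mul_inv_cancel_right]
  · intro j
    have h1 := c.hB (π' j)
    rw [h j] at h1
    rw [eq_inv_mul_iff_mul_eq, ← mul_assoc, ← h1, mul_inv_cancel_right]

theorem cj_Si (L : Lk g A B C S) {i : ℕ} (hi : i + 1 < g) :
    Cj A B (S i)⁻¹ (Equiv.swap i (i + 1)) :=
  (cj_S L hi).symm fun _ => Equiv.swap_apply_self _ _ _

/-- Transport. -/
theorem Uk.move {K K' : Finset ℕ} {U : Submodule F V} (h : Uk ρ A B C S g K U) {s : Γ}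
    {π : ℕ → ℕ} (c : Cj A B s π) (hu : Un ρ A B C S g (mv ρ s U)) (h1 : ∀ j, j < g → π j < g)
    (h2 : ∀ j, j < g → (j ∈ K' ↔ π j ∈ K)) : Uk ρ A B C S g K' (mv ρ s U) := by
  refine ⟨hu, ?_, ?_⟩
  · intro j hj hjK
    rw [h2 j hj] at hjK
    exact fx_mv_of_eq (h.fB _ (h1 j hj) hjK) (c.hB j)
  · intro j hjK hj
    rw [h2 j hj] at hjK
    have h3 := nn_mv ρ (c.hB j) (h.ii _ hjK (h1 j hj))
    rw [← mv_mul] at h3
    have h4 : s * (A (π j) * B (π j)) = A j * B j * s := by
      rw [← mul_assoc, ← c.hA, mul_assoc, ← c.hB, mul_assoc]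
    rwa [h4, mv_mul] at h3

theorem swap_lt {i j : ℕ} (hi : i + 1 < g) (hj : j < g) : Equiv.swap i (i + 1) j < g := by
  by_cases h1 : j = i
  · subst h1
    rw [Equiv.swap_apply_left]
    exact hi
  · by_cases h2 : j = i + 1
    · subst h2
      rw [Equiv.swap_apply_right]
      omega
    · rw [Equiv.swap_apply_of_ne_of_ne h1 h2]
      exact hj

theorem mem_last_swap {m i j : ℕ} (hm : m ≤ g) (hi : i + 1 < g) (him : g ≤ i + m) :
    j ∈ Finset.Ico (g - m) g ↔ Equiv.swap i (i + 1) j ∈ Finset.Ico (g - m) g := by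
  rw [Finset.mem_Ico, Finset.mem_Ico]
  by_cases h1 : j = i
  · subst h1
    rw [Equiv.swap_apply_left]
    omega
  · by_cases h2 : j = i + 1
    · subst h2
      rw [Equiv.swap_apply_right]
      omega
    · rw [Equiv.swap_apply_of_ne_of_ne h1 h2]

/-- The sum of all subspaces which are exact for the last `m` handles. -/
def Wm (ρ : Γ →* Module.End F V) (A B C S : ℕ → Γ) (g m : ℕ) : Submodule F V :=
  ⨆ U : {U : Submodule F V // Uk ρ A B C S g (Finset.Ico (g - m) g) U}, U.1

theorem le_Wm {m : ℕ} {U : Submodule F V} (h : Uk ρ A B C S g (Finset.Ico (g - m) g) U) :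
    U ≤ Wm ρ A B C S g m :=
  le_iSup (fun U : {U : Submodule F V // Uk ρ A B C S g (Finset.Ico (g - m) g) U} => U.1) ⟨U, h⟩

theorem mv_iSup {ι : Sort*} (ρ : Γ →* Module.End F V) (s : Γ) (f : ι → Submodule F V) :
    mv ρ s (⨆ i, f i) = ⨆ i, mv ρ s (f i) := Submodule.map_iSup _ _

theorem fx_iSup {ι : Sort*} {ρ : Γ →* Module.End F V} {s : Γ} {f : ι → Submodule F V}
    (h : ∀ i, s ∈ fx ρ (f i)) : s ∈ fx ρ (⨆ i, f i) := by
  have h1 : (⨆ i, f i) ≤ LinearMap.ker (nn ρ s) :=
    iSup_le fun i w hw => nn_eq_zero (h i) hw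
  intro w hw
  have h2 : nn ρ s w = 0 := h1 hw
  rwa [nn_apply, sub_eq_zero] at h2

theorem sb_iSup {ι : Sort*} {ρ : Γ →* Module.End F V} {s : Γ} {f : ι → Submodule F V}
    (h : ∀ i, s ∈ sb ρ (f i)) : s ∈ sb ρ (⨆ i, f i) := by
  rw [mem_sb, mv_iSup]
  congr 1
  funext i
  exact h i

/-- The sum is exact. -/
theorem ex_Wm (L : Lk g A B C S) (hU : LemU ρ A B C S g) {m : ℕ} (hm : m ≤ g) :
    Ex ρ A B C S g m (Wm ρ A B C S g m) where
  fA := fun i => fx_iSup fun U => U.2.un.fA i
  fC := by
    intro i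
    by_cases hi : i + 1 < g
    · exact fx_iSup fun U => U.2.un.fF i 0 (by omega)
    · rw [L.Cout i (by omega)]
      exact one_mem _
  fB := by
    intro i hi
    refine fx_iSup fun U => U.2.fB i (by omega) ?_
    rw [Finset.mem_Ico]
    omega
  sS := by
    intro i hi1 hi2
    have key : ∀ s : Γ, Cj A B s (Equiv.swap i (i + 1)) →
        (∀ U : Submodule F V, Un ρ A B C S g U → Un ρ A B C S g (mv ρ s U)) →
        mv ρ s (Wm ρ A B C S g m) ≤ Wm ρ A B C S g m := by
      intro s c hs
      rw [Wm, mv_iSup]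
      refine iSup_le fun U => le_Wm ?_
      exact U.2.move c (hs _ U.2.un) (fun j hj => swap_lt hi2 hj)
        fun j _ => mem_last_swap hm hi2 hi1
    apply le_antisymm
    · exact key _ (cj_S L hi2) fun U h => (hU U h i hi2).1
    · have h1 := key _ (cj_Si L hi2) fun U h => (hU U h i hi2).2
      exact (mv_inv_le ρ).1 h1
  sI := by
    intro i _ hi2
    exact sb_iSup fun U => U.2.un.sI i hi2
  ii := by
    intro i hi1 hi2
    have h1 : Wm ρ A B C S g m ≤
        (mv ρ (A i * B i) (Wm ρ A B C S g m)).comap (nn ρ (B i)) := by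
      refine iSup_le fun U w hw => ?_
      have h2 := U.2.ii i (by rw [Finset.mem_Ico]; omega) hi2 w hw
      exact mv_mono ρ _ (le_Wm U.2) h2
    exact fun w hw => h1 hw

/-- If all exact subspaces vanish then so do the subspaces which are exact for the last `m`
handles. -/
theorem last_bot (L : Lk g A B C S) (hU : LemU ρ A B C S g) {m : ℕ} (hm : m ≤ g)
    (hEV : ∀ W, Ex ρ A B C S g m W → W = ⊥) {U : Submodule F V}
    (h : Uk ρ A B C S g (Finset.Ico (g - m) g) U) : U = ⊥ := by
  have h1 := le_Wm h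
  rw [hEV _ (ex_Wm L hU hm)] at h1
  exact le_bot_iff.1 h1

/-- A set which cannot be moved is the set of the last handles. -/
theorem eq_last {K : Finset ℕ} (hK : ∀ j ∈ K, j < g) (h : ∀ i ∈ K, i + 1 < g → i + 1 ∈ K) :
    K = Finset.Ico (g - K.card) g := by
  rcases K.eq_empty_or_nonempty with h0 | h0
  · subst h0
    simp
  · have h1 := K.min'_mem h0
    have h2 : ∀ n, K.min' h0 + n < g → K.min' h0 + n ∈ K := by
      intro n
      induction n with
      | zero => exact fun _ => h1
      | succ n ih => exact fun hn => h _ (ih (by omega)) (by omega)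
    have h3 : K = Finset.Ico (K.min' h0) g := by
      ext j
      rw [Finset.mem_Ico]
      constructor
      · exact fun hj => ⟨K.min'_le j hj, hK j hj⟩
      · rintro ⟨h4, h5⟩
        have h6 := h2 (j - K.min' h0) (by omega)
        rwa [show K.min' h0 + (j - K.min' h0) = j by omega] at h6
    have h4 : K.card = g - K.min' h0 := by
      conv_lhs => rw [h3]
      rw [Nat.card_Ico]
    have h5 : K.min' h0 < g := hK _ h1
    have h6 : g - K.card = K.min' h0 := by omega
    rw [h6]
    exact h3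

/-- **Vanishing for all sets of handles.** -/
theorem uk_bot (L : Lk g A B C S) (hU : LemU ρ A B C S g) {m : ℕ} (hm : m ≤ g)
    (hEV : ∀ W, Ex ρ A B C S g m W → W = ⊥) :
    ∀ (n : ℕ) (K : Finset ℕ), (∀ j ∈ K, j < g) → K.card = m → (∑ j ∈ K, (g - j)) ≤ n →
      ∀ U, Uk ρ A B C S g K U → U = ⊥ := by
  intro n
  induction n with
  | zero =>
    intro K hK hc hs U h
    have h1 : K = ∅ := by
      rw [Finset.eq_empty_iff_forall_notMem]
      intro j hj
      have h2 := Finset.single_le_sum (f := fun j => g - j) (fun _ _ => Nat.zero_le _) hj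
      have h3 := hK j hj
      omega
    subst h1
    have h2 : m = 0 := by rw [← hc]; rfl
    subst h2
    apply last_bot L hU hm hEV
    rwa [show Finset.Ico (g - 0) g = (∅ : Finset ℕ) by simp]
  | succ n ih =>
    intro K hK hc hs U h
    by_cases h0 : ∀ i ∈ K, i + 1 < g → i + 1 ∈ K
    · have h1 := eq_last hK h0
      rw [hc] at h1
      rw [h1] at h
      exact last_bot L hU hm hEV h
    · push Not at h0
      obtain ⟨i, hiK, hi, hi'⟩ := h0
      have hsum : ∑ j ∈ K.map (Equiv.swap i (i + 1)).toEmbedding, (g - j) + 1 =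
          ∑ j ∈ K, (g - j) := by
        rw [Finset.sum_map, ← Finset.add_sum_erase K _ hiK, ← Finset.add_sum_erase K _ hiK]
        have h1 : ∑ x ∈ K.erase i, (g - (Equiv.swap i (i + 1)).toEmbedding x) =
            ∑ x ∈ K.erase i, (g - x) := by
          apply Finset.sum_congr rfl
          intro x hx
          rw [Finset.mem_erase] at hx
          have h2 : x ≠ i + 1 := fun h3 => hi' (h3 ▸ hx.2)
          rw [Equiv.coe_toEmbedding, Equiv.swap_apply_of_ne_of_ne hx.1 h2]
        rw [h1, Equiv.coe_toEmbedding, Equiv.swap_apply_left]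
        omega
      have hmem : ∀ j, j ∈ K.map (Equiv.swap i (i + 1)).toEmbedding ↔
          Equiv.swap i (i + 1) j ∈ K := by
        intro j
        rw [Finset.mem_map]
        constructor
        · rintro ⟨x, hx, rfl⟩
          rwa [Equiv.coe_toEmbedding, Equiv.swap_apply_self]
        · intro hj
          exact ⟨_, hj, by rw [Equiv.coe_toEmbedding, Equiv.swap_apply_self]⟩
      have h1 := ih (K.map (Equiv.swap i (i + 1)).toEmbedding) (fun j hj => by
          rw [hmem] at hj
          have h2 := swap_lt hi (hK _ hj)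
          rwa [Equiv.swap_apply_self] at h2) (by rw [Finset.card_map, hc]) (by omega)
        (mv ρ (S i) U) (h.move (cj_S L hi) (hU U h.un i hi).1 (fun j hj => swap_lt hi hj)
          fun j _ => hmem j)
      have h2 : mv ρ (S i)⁻¹ (mv ρ (S i) U) = mv ρ (S i)⁻¹ ⊥ := by rw [h1]
      rwa [← mv_mul, inv_mul_cancel, mv_one, mv_bot] at h2

end Pool.MP_59b15d_al.H95E
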