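import Mathlib
import Pool.Agent.H.MP_59b15d_al.h95e.St1
import Pool.Agent.H.MP_59b15d_al.h11d.Dual
import Pool.Agent.H.MP_59b15d_al.h47e.Fb

set_option autoImplicit false

/-!
# The images of the operators `X n_J`

`X` is an operator which commutes with what commutes with the bounding pair `A q`, `T` and with
`B q`, and `n_J` is the product of the `ρ (A j) - 1`, `j ∈ J`.
-/

namespace Pool.MP_59b15d_al.H95E

open Module Pool.MP_59b15d_al.H93E Pool.MP_59b15d_al.H11D Pool.MP_59b15d_al.H47E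

variable {F V Γ : Type*} [Field F] [AddCommGroup V] [Module F V] [Group Γ]
  {ρ : Γ →* Module.End F V} {g q m : ℕ} {A B C S : ℕ → Γ} {T : Γ} {X : Module.End F V}

/-- The image of `X n_J`. -/
def EX (ρ : Γ →* Module.End F V) (A : ℕ → Γ) (X : Module.End F V) (J : List ℕ) :
    Submodule F V := LinearMap.range (X * np ρ (J.map A))

theorem mem_EX {J : List ℕ} {w : V} :
    w ∈ EX ρ A X J ↔ ∃ v, X (np ρ (J.map A) v) = w := Iff.rfl

/-- The lists of `m` handles different from `q`. -/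
structure Gd (g q m : ℕ) (J : List ℕ) : Prop where
  nd : J.Nodup
  nq : q ∉ J
  lt : ∀ j ∈ J, j < g
  len : J.length = m

/-- The operator `X` commutes with what commutes with `a`, `T` and `b`. -/
def Xc (ρ : Γ →* Module.End F V) (a T b : Γ) (X : Module.End F V) : Prop :=
  ∀ x : Γ, Commute x a → Commute x T → Commute x b → ∀ v, ρ x (X v) = X (ρ x v)

/-- The subspace `E` is fixed by the twists which do not meet the handles of `J` and do not
pass the handle `q`. -/
structure FJ (ρ : Γ →* Module.End F V) (A B C S : ℕ → Γ) (g q : ℕ) (J : List ℕ)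
    (E : Submodule F V) : Prop where
  fA : ∀ l, l < g → A l ∈ fx ρ E
  fB : ∀ l, l < g → l ∉ J → B l ∈ fx ρ E
  fF : ∀ l n, l + n + 1 < g → (l + n + 1 ≤ q ∨ q ≤ l) → fa C S l n ∈ fx ρ E

/-- The elements which commute with everything. -/
theorem EX_le (hX : Xc ρ (A q) T (B q) X) {J : List ℕ} {x : Γ} (h1 : Commute x (A q))
    (h2 : Commute x T) (h3 : Commute x (B q)) (h4 : ∀ j ∈ J, Commute x (A j)) :
    ∀ w ∈ EX ρ A X J, ρ x w ∈ EX ρ A X J := by
  rintro _ ⟨v, rfl⟩
  refine ⟨ρ x v, ?_⟩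
  change X (np ρ (J.map A) (ρ x v)) = ρ x (X (np ρ (J.map A) v))
  rw [hX x h1 h2 h3, rho_np]
  intro y hy
  obtain ⟨j, hj, rfl⟩ := List.mem_map.1 hy
  exact h4 j hj

theorem EX_sb (hX : Xc ρ (A q) T (B q) X) {J : List ℕ} {x : Γ} (h1 : Commute x (A q))
    (h2 : Commute x T) (h3 : Commute x (B q)) (h4 : ∀ j ∈ J, Commute x (A j)) :
    x ∈ sb ρ (EX ρ A X J) :=
  mem_sb_of_le (EX_le hX h1 h2 h3 h4)
    (EX_le hX h1.inv_left h2.inv_left h3.inv_left fun j hj => (h4 j hj).inv_left)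

/-- Transport by an element which permutes the `A j`. -/
theorem EX_mv_le (hX : Xc ρ (A q) T (B q) X) {J : List ℕ} {x : Γ} (h1 : Commute x (A q))
    (h2 : Commute x T) (h3 : Commute x (B q)) {π : ℕ → ℕ}
    (h4 : ∀ j, SemiconjBy x (A j) (A (π j))) :
    mv ρ x (EX ρ A X J) = EX ρ A X (J.map π) := by
  have h5 : (J.map A).map (fun y => x * y * x⁻¹) = (J.map π).map A := by
    rw [List.map_map, List.map_map]
    apply List.map_congr_left
    intro j _
    exact sc_conj (h4 j)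
  have h6 : ∀ v, ρ x (X (np ρ (J.map A) v)) = X (np ρ ((J.map π).map A) (ρ x v)) := by
    intro v
    rw [hX x h1 h2 h3, ← np_conj, h5]
  apply le_antisymm
  · rintro _ ⟨_, ⟨v, rfl⟩, rfl⟩
    exact ⟨ρ x v, (h6 v).symm⟩
  · rintro _ ⟨v, rfl⟩
    refine ⟨X (np ρ (J.map A) (ρ x⁻¹ v)), ⟨_, rfl⟩, ?_⟩
    rw [h6, rho_inv']
    rfl

/-- The exchanges away from `q`. -/
theorem EX_swap (L : Lk g A B C S) (P : Bp g A B C S q T) (hX : Xc ρ (A q) T (B q) X)
    (J : List ℕ) {i : ℕ} (hi : i + 1 < g) (h1 : i ≠ q) (h2 : i + 1 ≠ q) :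
    mv ρ (S i) (EX ρ A X J) = EX ρ A X (J.map (Equiv.swap i (i + 1))) :=
  EX_mv_le hX (L.SAo i q (Ne.symm h1) (Ne.symm h2)) (T_S L P hi h1 h2).symm
    (L.SBo i q (Ne.symm h1) (Ne.symm h2)) fun j => S_A L hi j

theorem Gd.swap {J : List ℕ} (G : Gd g q m J) {i : ℕ} (hi : i + 1 < g) (h1 : i ≠ q)
    (h2 : i + 1 ≠ q) : Gd g q m (J.map (Equiv.swap i (i + 1))) where
  nd := G.nd.map (Equiv.injective _)
  nq := by
    intro h
    obtain ⟨j, hj, e⟩ := List.mem_map.1 h
    have e2 : j = Equiv.swap i (i + 1) q := by rw [← e, Equiv.swap_apply_self]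
    rw [Equiv.swap_apply_of_ne_of_ne (Ne.symm h1) (Ne.symm h2)] at e2
    exact G.nq (e2 ▸ hj)
  lt := by
    intro j hj
    obtain ⟨k, hk, rfl⟩ := List.mem_map.1 hj
    exact swap_lt hi (G.lt k hk)
  len := by rw [List.length_map, G.len]

theorem map_swap_swap (J : List ℕ) (i : ℕ) :
    (J.map (Equiv.swap i (i + 1))).map (Equiv.swap i (i + 1)) = J := by
  rw [List.map_map]
  conv_rhs => rw [← List.map_id J]
  apply List.map_congr_left
  intro j _
  exact Equiv.swap_apply_self _ _ _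

/-- **The front arcs across `q`.** -/
theorem fa_across (L : Lk g A B C S) (P : Bp g A B C S q T) (hX : Xc ρ (A q) T (B q) X)
    (h0 : 0 < q) (hbase : ∀ J, Gd g q m J → fa C S (q - 1) 1 ∈ fx ρ (EX ρ A X J)) :
    ∀ (n l : ℕ), l + n + 1 < g → l < q → q < l + n + 1 → ∀ J, Gd g q m J →
      fa C S l n ∈ fx ρ (EX ρ A X J) := by
  intro n
  induction n with
  | zero => intro l _ h1 h2; omega
  | succ n ih =>
    intro l h1 h2 h3 J hJ
    by_cases h4 : q < l + n + 1
    · -- the last end can be moved to the left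
      have h5 := ih l (by omega) h2 h4 _ (hJ.swap (i := l + n + 1) (by omega) (by omega) (by omega))
      rw [← EX_swap L P hX J (by omega) (by omega) (by omega), mem_fx_mv, ← fa_succ] at h5
      exact h5
    · by_cases h5 : l + 1 < q
      · have h6 := ih (l + 1) (by omega) h5 (by omega) _
          (hJ.swap (i := l) (by omega) (by omega) (by omega))
        have h7 : mv ρ (S l) (EX ρ A X (J.map (Equiv.swap l (l + 1)))) = EX ρ A X J := by
          rw [EX_swap L P hX _ (by omega) (by omega) (by omega), map_swap_swap]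
        rw [← h7]
        exact fx_mv_of_eq h6 (fa_left L n (by omega)).eq.symm
      · obtain rfl : l = q - 1 := by omega
        obtain rfl : n = 0 := by omega
        exact hbase J hJ

/-- The exactness at the handles of `J`. -/
theorem EX_ii (L : Lk g A B C S) (P : Bp g A B C S q T) (hX : Xc ρ (A q) T (B q) X)
    {J : List ℕ} (G : Gd g q m J) {j : ℕ} (hj : j ∈ J) :
    ∀ w ∈ EX ρ A X J, nn ρ (B j) w ∈ mv ρ (A j * B j) (EX ρ A X J) := by
  have hjq : j ≠ q := fun h => G.nq (h ▸ hj)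
  have hcA : ∀ x ∈ J.map A, ∀ y ∈ J.map A, Commute x y := by
    intro x hx y hy
    obtain ⟨a, _, rfl⟩ := List.mem_map.1 hx
    obtain ⟨b, _, rfl⟩ := List.mem_map.1 hy
    exact L.AA a b
  have hp : (J.map A).Perm (A j :: (J.erase j).map A) := by
    have h1 := (List.perm_cons_erase hj).map A
    rwa [List.map_cons] at h1
  have hcB : Commute (B j) (A q) ∧ Commute (B j) T ∧ Commute (B j) (B q) :=
    ⟨(L.AB q j (Ne.symm hjq)).symm, (P.TB j hjq).symm, L.BB j q⟩
  have hcAj : Commute (A j) (A q) ∧ Commute (A j) T ∧ Commute (A j) (B q) :=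
    ⟨L.AA j q, (P.TA j).symm, L.AB j q hjq⟩
  have hco : ∀ y ∈ (J.erase j).map A, Commute (B j) y := by
    intro y hy
    obtain ⟨k, hk, rfl⟩ := List.mem_map.1 hy
    have hne : k ≠ j := by
      have h1 := (List.Nodup.mem_erase_iff G.nd).1 hk
      exact h1.1
    exact (L.AB k j hne).symm
  have hca : ∀ y ∈ (J.erase j).map A, Commute (A j) y := by
    intro y hy
    obtain ⟨k, _, rfl⟩ := List.mem_map.1 hy
    exact L.AA j k
  -- `B j` is conjugate to `A j` by `A j * B j`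
  have hbr : B j * (A j * B j) = A j * B j * A j := by
    rw [← mul_assoc, ← L.brA j]
  rintro _ ⟨v, rfl⟩
  -- the vector `nn (B j) nn (A j) v'` lies in `ρ (A j * B j) nn (A j) V`
  obtain ⟨u, hu⟩ : ∃ u, nn ρ (B j) (nn ρ (A j) v) = ρ (A j * B j) (nn ρ (A j) u) := by
    refine ⟨ρ (A j * B j)⁻¹ (nn ρ (A j) v), ?_⟩
    rw [← nn_conj ρ hbr, rho_inv']
  have e1 : ∀ w, np ρ (J.map A) w = np ρ ((J.erase j).map A) (nn ρ (A j) w) := by
    intro w
    rw [np_perm ρ hp hcA, np_cons, nn_np ρ hca]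
  have e2 : nn ρ (B j) (X (np ρ (J.map A) v)) =
      ρ (A j * B j) (X (np ρ (J.map A) u)) := by
    have e3 : ∀ w, nn ρ (B j) (X w) = X (nn ρ (B j) w) := by
      intro w
      rw [nn_apply, nn_apply, map_sub, hX _ hcB.1 hcB.2.1 hcB.2.2]
    have hco' : ∀ y ∈ (J.erase j).map A, Commute (A j * B j) y := fun y hy =>
      (hca y hy).mul_left (hco y hy)
    rw [e3, e1, nn_np ρ hco, hu, e1, ← rho_np ρ hco',
      hX _ (hcAj.1.mul_left hcB.1) (hcAj.2.1.mul_left hcB.2.1) (hcAj.2.2.mul_left hcB.2.2)]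
  change nn ρ (B j) (X (np ρ (J.map A) v)) ∈ _
  rw [e2]
  exact mv_mem _ ⟨u, rfl⟩

/-- **The subspaces `X n_J V` are exact at the handles of `J`.** -/
theorem EX_uk (L : Lk g A B C S) (P : Bp g A B C S q T) (hX : Xc ρ (A q) T (B q) X)
    (Aout : ∀ i, g ≤ i → A i = 1) (h0 : 0 < q) (hq : q + 1 < g)
    (star : fa C S (q - 1) 1 ∈
      Subgroup.closure {C (q - 1), C q, A (q - 1), A q, A (q + 1), B q})
    (hF : ∀ J, Gd g q m J → FJ ρ A B C S g q J (EX ρ A X J)) {J : List ℕ} (G : Gd g q m J) :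
    Uk ρ A B C S g J.toFinset (EX ρ A X J) := by
  have hbase : ∀ J, Gd g q m J → fa C S (q - 1) 1 ∈ fx ρ (EX ρ A X J) := by
    intro J hJ
    have h1 := hF J hJ
    have h2 : Subgroup.closure {C (q - 1), C q, A (q - 1), A q, A (q + 1), B q} ≤
        fx ρ (EX ρ A X J) := by
      rw [Subgroup.closure_le]
      rintro x (rfl | rfl | rfl | rfl | rfl | rfl)
      · exact h1.fF (q - 1) 0 (by omega) (by omega)
      · exact h1.fF q 0 (by omega) (by omega)
      · exact h1.fA _ (by omega)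
      · exact h1.fA _ (by omega)
      · exact h1.fA _ (by omega)
      · exact h1.fB _ (by omega) hJ.nq
    exact h2 star
  have hFJ := hF J G
  refine ⟨⟨?_, ?_, ?_⟩, ?_, ?_⟩
  · intro i
    by_cases hi : i < g
    · exact hFJ.fA i hi
    · rw [Aout i (by omega)]
      exact one_mem _
  · intro l n hn
    by_cases h1 : l + n + 1 ≤ q ∨ q ≤ l
    · exact hFJ.fF l n hn h1
    · exact fa_across L P hX h0 hbase n l hn (by omega) (by omega) J G
  · intro i hi
    by_cases h1 : i ∈ J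
    · have hiq : i ≠ q := fun h => G.nq (h ▸ h1)
      refine EX_sb hX (io_A L i q) (T_io P hiq).symm (io_B L i q) fun j _ => io_A L i j
    · exact fx_le_sb ρ _ (pow_mem (mul_mem (hFJ.fA i hi) (hFJ.fB i hi h1)) 3)
  · intro i hi hiJ
    rw [List.mem_toFinset] at hiJ
    exact hFJ.fB i hi hiJ
  · intro i hiJ _
    rw [List.mem_toFinset] at hiJ
    exact EX_ii L P hX G hiJ

/-- **Vanishing.** If all exact subspaces for `m` handles vanish, then `X n_J = 0`. -/
theorem EX_zero (L : Lk g A B C S) (hU : LemU ρ A B C S g) (P : Bp g A B C S q T)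
    (hX : Xc ρ (A q) T (B q) X) (Aout : ∀ i, g ≤ i → A i = 1) (h0 : 0 < q) (hq : q + 1 < g)
    (star : fa C S (q - 1) 1 ∈
      Subgroup.closure {C (q - 1), C q, A (q - 1), A q, A (q + 1), B q}) (hm : m ≤ g)
    (hEV : ∀ W, Ex ρ A B C S g m W → W = ⊥)
    (hF : ∀ J, Gd g q m J → FJ ρ A B C S g q J (EX ρ A X J)) {J : List ℕ} (G : Gd g q m J)
    (v : V) : X (np ρ (J.map A) v) = 0 := by
  have h1 := uk_bot L hU hm hEV _ J.toFinset (by
    intro j hj
    rw [List.mem_toFinset] at hj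
    exact G.lt j hj) (by rw [List.toFinset_card_of_nodup G.nd, G.len]) le_rfl _
    (EX_uk L P hX Aout h0 hq star hF G)
  have h2 : X (np ρ (J.map A) v) ∈ EX ρ A X J := ⟨v, rfl⟩
  rw [h1] at h2
  exact h2

end Pool.MP_59b15d_al.H95E
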