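import Mathlib
import Pool.Agent.H.MP_59b15d_al.h95e.St2
import Pool.Agent.H.MP_59b15d_al.h47e.Lan
import Pool.Agent.H.MP_59b15d_al.h46u.LemU2

set_option autoImplicit false

/-!
# The twists of a bounding pair have the same image

If the products of `k + 1` of the operators `ρ (A i) - 1` vanish and nothing is exact for less than
`k` handles, then `ρ (A q) = ρ T` for the bounding pair `A q`, `T`, provided that there are at least
`k + 1` handles on each side of `q`.
-/

namespace Pool.MP_59b15d_al.H95E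

open Module Pool.MP_59b15d_al.H93E Pool.MP_59b15d_al.H11D Pool.MP_59b15d_al.H47E
  Pool.MP_59b15d_al.H60E

variable {F V Γ : Type*} [Field F] [AddCommGroup V] [Module F V] [Group Γ]
  {ρ : Γ →* Module.End F V} {g q m : ℕ} {A B C S : ℕ → Γ} {T : Γ}

/-- Two elements of an interval which do not belong to a short list. -/
theorem two_free {a b : ℕ} {J : List ℕ} (h : a + J.length + 2 ≤ b) :
    ∃ x y, a ≤ x ∧ x < y ∧ y < b ∧ x ∉ J ∧ y ∉ J := by
  have h1 : 1 < (Finset.Ico a b \ J.toFinset).card := by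
    have h2 := Finset.le_card_sdiff J.toFinset (Finset.Ico a b)
    have h3 := List.toFinset_card_le J
    rw [Nat.card_Ico] at h2
    omega
  obtain ⟨x, hx, y, hy, hxy⟩ := Finset.one_lt_card.1 h1
  rw [Finset.mem_sdiff, Finset.mem_Ico, List.mem_toFinset] at hx hy
  rcases lt_or_gt_of_ne hxy with h4 | h4
  · exact ⟨x, y, hx.1.1, h4, hy.1.2, hx.2, hy.2⟩
  · exact ⟨y, x, hy.1.1, h4, hx.1.2, hy.2, hx.2⟩

theorem Gd.free {J : List ℕ} (G : Gd g q m J) (h1 : m + 2 ≤ q) (h2 : q + m + 3 ≤ g) :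
    Free2 g q J := by
  have hl := G.len
  constructor
  · obtain ⟨x, y, _, h3, h4, h5, h6⟩ := two_free (a := 0) (b := q) (J := J) (by omega)
    exact ⟨x, y, h3, h4, h5, h6⟩
  · obtain ⟨x, y, h3, h4, h5, h6, h7⟩ := two_free (a := q + 1) (b := g) (J := J) (by omega)
    exact ⟨x, y, h3, h4, h5, h6, h7⟩

theorem map_comm {J : List ℕ} {x : Γ} (h : ∀ j ∈ J, Commute x (A j)) :
    ∀ y ∈ J.map A, Commute x y := by
  intro y hy
  obtain ⟨j, hj, rfl⟩ := List.mem_map.1 hy
  exact h j hj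

theorem map_comm2 (L : Lk g A B C S) (J : List ℕ) :
    ∀ x ∈ J.map A, ∀ y ∈ J.map A, Commute x y := by
  intro x hx
  obtain ⟨j, _, rfl⟩ := List.mem_map.1 hx
  exact map_comm fun i _ => L.AA j i

/-- The group generated by `LJ` and `B q`. -/
def HJ (g : ℕ) (A B : ℕ → Γ) (q : ℕ) (T : Γ) (J : List ℕ) : Subgroup Γ :=
  Subgroup.closure ((LJ g A B q T J : Set Γ) ∪ {B q})

theorem LJ_le_HJ {J : List ℕ} {x : Γ} (h : x ∈ LJ g A B q T J) : x ∈ HJ g A B q T J :=
  Subgroup.subset_closure (Or.inl h)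

/-- The product `D n_J` vanishes for all lists of `m` handles. -/
def Zm (ρ : Γ →* Module.End F V) (A : ℕ → Γ) (T : Γ) (g q m : ℕ) : Prop :=
  ∀ J, Gd g q m J → ∀ v, (ρ (A q) - ρ T) (np ρ (J.map A) v) = 0

/-- The data of `BPair`. -/
theorem bpair (L : Lk g A B C S) (R : Ln g A B C S) (P : Bp g A B C S q T) (hq : q + 1 < g)
    {J : List ℕ} (G : Gd g q m J) (hF : Free2 g q J) (h : Zm ρ A T g q (m + 1)) :
    BPair ρ (A q) T (B q) (C q) (LJ g A B q T J) (HJ g A B q T J)
      (LinearMap.range (np ρ (J.map A))) where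
  cee := (P.TA q).symm.eq
  ceL := fun l hl => (LJ_q hl).symm.eq
  ceL' := fun l hl => (LJ_T hl).symm.eq
  br := L.brA q
  br' := P.brT
  hs := C_mem L R P (by omega) hF q
  brs := (L.brC q hq).symm
  hH := rfl
  he := LJ_le_HJ (A_mem L R P (by omega) hF (by omega))
  he' := LJ_le_HJ (T_mem' L R P (by omega) hF G.nq)
  hU := by
    have h1 : ∀ x ∈ HJ g A B q T J, ∀ j ∈ J, Commute x (A j) := by
      intro x hx j hj
      have h2 : HJ g A B q T J ≤ Subgroup.centralizer {A j} := by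
        rw [HJ, Subgroup.closure_le]
        rintro y (hy | hy)
        · rw [SetLike.mem_coe, Subgroup.mem_centralizer_singleton_iff]
          exact (LJ_A hy hj).eq
        · rw [Set.mem_singleton_iff] at hy
          rw [SetLike.mem_coe, Subgroup.mem_centralizer_singleton_iff, hy]
          exact (L.AB j q fun e => G.nq (e ▸ hj)).symm.eq
      exact Subgroup.mem_centralizer_singleton_iff.1 (h2 hx)
    rintro x hx _ ⟨v, rfl⟩
    exact ⟨ρ x v, (rho_np ρ (map_comm (h1 x hx)) v).symm⟩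
  hD := by
    rintro l hl _ ⟨v, rfl⟩
    have h1 := D_LJ (ρ := ρ) (N := np ρ (J.map A)) L P (fun t ht => by
        apply LinearMap.ext
        intro v
        exact rho_np ρ (map_comm ht) v) (fun l hl hl' => by
        apply LinearMap.ext
        intro v
        rw [List.mem_cons, not_or] at hl'
        exact h (l :: J) ⟨List.nodup_cons.2 ⟨hl'.2, G.nd⟩, by
          rw [List.mem_cons, not_or]
          exact ⟨fun e => hl'.1 e.symm, G.nq⟩, by
          intro j hj
          rcases List.mem_cons.1 hj with rfl | hj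
          · exact hl
          · exact G.lt j hj, by rw [List.length_cons, G.len]⟩ v) l hl
    exact LinearMap.congr_fun h1 v

/-- What is fixed by `HJ`. -/
theorem fj_of (L : Lk g A B C S) (R : Ln g A B C S) (P : Bp g A B C S q T) (hq : q + 1 < g)
    {J : List ℕ} (hF : Free2 g q J) {E : Submodule F V} (h : HJ g A B q T J ≤ fx ρ E) :
    FJ ρ A B C S g q J E where
  fA := fun _ hl => h (LJ_le_HJ (A_mem L R P (by omega) hF hl))
  fB := by
    intro l hl hlJ
    by_cases h1 : l = q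
    · rw [h1]
      exact h (Subgroup.subset_closure (Or.inr rfl))
    · refine h (LJ_le_HJ (B_mem' L R P (by omega) hF hl ?_))
      rw [List.mem_cons, not_or]
      exact ⟨h1, hlJ⟩
  fF := fun _ _ hn hs => h (LJ_le_HJ (fa_mem L R P (by omega) hF hn hs.symm))

/-- The difference operator is of the kind `Xc`. -/
theorem xc_D (ρ : Γ →* Module.End F V) (a T b : Γ) : Xc ρ a T b (ρ a - ρ T) :=
  fun _ h1 h2 _ v => (D_comm h1.symm.eq h2.symm.eq v).symm

theorem xc_Db (ρ : Γ →* Module.End F V) (a T b : Γ) :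
    Xc ρ a T b ((ρ a - ρ T) * nn ρ b) := by
  intro x h1 h2 h3 v
  change ρ x ((ρ a - ρ T) (nn ρ b v)) = (ρ a - ρ T) (nn ρ b (ρ x v))
  rw [nn_conj ρ h3.symm.eq, xc_D ρ a T b x h1 h2 h3]

section

variable [FiniteDimensional F V] (L : Lk g A B C S) (H : Hb g A B C S) (R : Ln g A B C S)
  (P : Bp g A B C S q T) (Aout : ∀ i, g ≤ i → A i = 1)
  (star : fa C S (q - 1) 1 ∈
      Subgroup.closure {C (q - 1), C q, A (q - 1), A q, A (q + 1), B q})
include L H R P Aout star

/-- The first half of the step. -/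
theorem half1 (h1 : m + 2 ≤ q) (h2 : q + m + 3 ≤ g) (hEV : ∀ W, Ex ρ A B C S g m W → W = ⊥)
    (h : Zm ρ A T g q (m + 1)) {J : List ℕ} (G : Gd g q m J) (v : V) :
    (ρ (A q) - ρ T) (nn ρ (B q) (np ρ (J.map A) v)) = 0 := by
  refine EX_zero (X := (ρ (A q) - ρ T) * nn ρ (B q)) L (H46U.lemU L H) P (xc_Db ρ _ _ _) Aout
    (by omega) (by omega) star (by omega) hEV ?_ G v
  intro J hJ
  have hF := hJ.free h1 h2
  refine fj_of L R P (by omega) hF ?_
  rintro x hx _ ⟨w, rfl⟩
  exact (bpair L R P (by omega) hJ hF h).sec2 ⟨w, rfl⟩ x hx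

/-- **The step.** -/
theorem Zm.step (h1 : m + 2 ≤ q) (h2 : q + m + 3 ≤ g) (hEV : ∀ W, Ex ρ A B C S g m W → W = ⊥)
    (hEV' : ∀ W, Ex (du ρ) A B C S g m W → W = ⊥) (h : Zm ρ A T g q (m + 1)) :
    Zm ρ A T g q m := by
  have hAq : ∀ {n : ℕ} {J : List ℕ}, Gd g q n J → (∀ x ∈ J.map A, Commute (A q) x) ∧
      (∀ x ∈ J.map A, Commute T x) ∧ ∀ x ∈ J.map A, Commute (B q) x := fun G =>
    ⟨map_comm fun j _ => L.AA q j, map_comm fun j _ => P.TA j,
      map_comm fun j hj => (L.AB j q fun e => G.nq (e ▸ hj)).symm⟩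
  have hdu : Zm (du ρ) A T g q (m + 1) := by
    intro J hJ
    exact (du_D_np_iff ρ (map_comm2 L J) (P.TA q).symm.eq (hAq hJ).1 (hAq hJ).2.1).2 (h J hJ)
  intro J G v
  refine EX_zero (X := ρ (A q) - ρ T) L (H46U.lemU L H) P (xc_D ρ _ _ _) Aout
    (by omega) (by omega) star (by omega) hEV ?_ G v
  intro J hJ
  have hF := hJ.free h1 h2
  refine fj_of L R P (by omega) hF ?_
  rintro x hx _ ⟨w, rfl⟩
  refine (bpair L R P (by omega) hJ hF h).sec2e ?_ ?_ ⟨w, rfl⟩ x hx
  · rintro _ ⟨u, rfl⟩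
    exact half1 L H R P Aout star h1 h2 hEV h hJ u
  · refine sec2e_hyp ρ (map_comm2 L J) (P.TA q).symm.eq (hAq hJ).1 (hAq hJ).2.1 (hAq hJ).2.2 ?_
    rintro _ ⟨u, rfl⟩
    exact half1 L H R P Aout star h1 h2 hEV' hdu hJ u

omit H R Aout star [FiniteDimensional F V] in
/-- The beginning. -/
theorem Zm.base {k : ℕ} (hq : q < g) (h : ∀ I : List ℕ, I.Nodup → (∀ i ∈ I, i < g) →
    I.length = k + 1 → ∀ v, np ρ (I.map A) v = 0) : Zm ρ A T g q k := by
  intro J G v
  have h1 : ∀ w, nn ρ (A q) (np ρ (J.map A) w) = 0 := by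
    intro w
    have h2 := h (q :: J) (List.nodup_cons.2 ⟨G.nq, G.nd⟩) (by
      intro i hi
      rcases List.mem_cons.1 hi with rfl | hi
      · exact hq
      · exact G.lt i hi) (by rw [List.length_cons, G.len]) w
    rwa [List.map_cons, np_cons] at h2
  have h2 : nn ρ T (np ρ (J.map A) v) = 0 := by
    have hc : ∀ x ∈ J.map A, Commute (hh A B q T) x :=
      map_comm fun j hj => h_Aj L P fun e => G.nq (e ▸ hj)
    rw [← rho_inv' ρ (hh A B q T) v, ← rho_np ρ hc, nn_conj ρ (h_A L P).eq.symm, h1, map_zero]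
  have h3 : (ρ (A q) - ρ T) (np ρ (J.map A) v) =
      nn ρ (A q) (np ρ (J.map A) v) - nn ρ T (np ρ (J.map A) v) := by
    rw [nn_apply, nn_apply, D_apply]
    abel
  rw [h3, h1, h2, sub_zero]

/-- **The bounding pair.** -/
theorem rho_eq_T {k : ℕ} (hq : q < g) (h1 : 0 < k → k + 1 ≤ q) (h2 : 0 < k → q + k + 2 ≤ g)
    (h : ∀ I : List ℕ, I.Nodup → (∀ i ∈ I, i < g) →
      I.length = k + 1 → ∀ v, np ρ (I.map A) v = 0)
    (hEV : ∀ m < k, ∀ W, Ex ρ A B C S g m W → W = ⊥)
    (hEV' : ∀ m < k, ∀ W, Ex (du ρ) A B C S g m W → W = ⊥) : ρ (A q) = ρ T := by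
  have key : ∀ n m, n + m = k → Zm ρ A T g q m := by
    intro n
    induction n with
    | zero =>
      rintro m h3
      rw [show m = k by omega]
      exact Zm.base L P hq h
    | succ n ih =>
      intro m h3
      have h4 := ih (m + 1) (by omega)
      have h5 := h1 (by omega)
      have h6 := h2 (by omega)
      exact Zm.step L H R P Aout star (by omega) (by omega) (hEV m (by omega))
        (hEV' m (by omega)) h4
  have h3 := key k 0 (by omega)
  apply LinearMap.ext
  intro v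
  have h4 := h3 [] ⟨List.nodup_nil, List.not_mem_nil, fun j hj => absurd hj List.not_mem_nil, rfl⟩
    v
  rw [List.map_nil, np_nil] at h4
  rwa [LinearMap.sub_apply, sub_eq_zero] at h4

end

end Pool.MP_59b15d_al.H95E
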