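import Mathlib
import Pool.Agent.H.MP_59b15d_al.h95e.St3

set_option autoImplicit false

/-!
# All products of the same length vanish if one does
-/

namespace Pool.MP_59b15d_al.H95E

open Module Pool.MP_59b15d_al.H93E Pool.MP_59b15d_al.H11D Pool.MP_59b15d_al.H47E
  Pool.MP_59b15d_al.H60E

variable {F V Γ : Type*} [Field F] [AddCommGroup V] [Module F V] [Group Γ]
  {ρ : Γ →* Module.End F V} {g : ℕ} {A B C S : ℕ → Γ}

/-- The product of the operators `ρ (A i) - 1`, `i ∈ I`, vanishes. -/
def NZ (ρ : Γ →* Module.End F V) (A : ℕ → Γ) (I : List ℕ) : Prop :=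
  ∀ v, np ρ (I.map A) v = 0

theorem NZ.swap (L : Lk g A B C S) {I : List ℕ} {i : ℕ} (hi : i + 1 < g) (h : NZ ρ A I) :
    NZ ρ A (I.map (Equiv.swap i (i + 1))) := by
  intro v
  have h5 : (I.map A).map (fun y => S i * y * (S i)⁻¹) =
      (I.map (Equiv.swap i (i + 1))).map A := by
    rw [List.map_map, List.map_map]
    apply List.map_congr_left
    intro j _
    exact sc_conj (S_A L hi j)
  rw [← rho_inv' ρ (S i) v, ← h5, np_conj, h, map_zero]

theorem NZ.congr (L : Lk g A B C S) {I I' : List ℕ} (h1 : I.Nodup) (h2 : I'.Nodup)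
    (h3 : I.toFinset = I'.toFinset) (h : NZ ρ A I) : NZ ρ A I' := by
  intro v
  have h4 := (List.perm_of_nodup_nodup_toFinset_eq h1 h2 h3).map A
  rw [← np_perm ρ h4 (map_comm2 L I), h v]

theorem nz_last (L : Lk g A B C S) {n : ℕ} : ∀ (N : ℕ) (K : Finset ℕ), (∀ j ∈ K, j < g) →
    K.card = n → (∑ j ∈ K, (g - j)) ≤ N →
      (NZ ρ A K.toList ↔ NZ ρ A (Finset.Ico (g - n) g).toList) := by
  intro N
  induction N with
  | zero =>
    intro K hK hc hs
    have h1 : K = ∅ := by
      rw [Finset.eq_empty_iff_forall_notMem]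
      intro j hj
      have h2 := Finset.single_le_sum (f := fun j => g - j) (fun _ _ => Nat.zero_le _) hj
      have h3 := hK j hj
      omega
    subst h1
    have h2 : n = 0 := by rw [← hc]; rfl
    subst h2
    rw [show Finset.Ico (g - 0) g = (∅ : Finset ℕ) by simp]
  | succ N ih =>
    intro K hK hc hs
    by_cases h0 : ∀ i ∈ K, i + 1 < g → i + 1 ∈ K
    · have h1 := eq_last hK h0
      rw [hc] at h1
      rw [← h1]
    · push Not at h0
      obtain ⟨i, hiK, hi, hi'⟩ := h0
      have hsum : ∑ j ∈ K.map (Equiv.swap i (i + 1)).toEmbedding, (g - j) + 1 =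
          ∑ j ∈ K, (g - j) := by
        rw [Finset.sum_map, ← Finset.add_sum_erase K _ hiK, ← Finset.add_sum_erase K _ hiK]
        have h1 : ∑ x ∈ K.erase i, (g - (Equiv.swap i (i + 1)).toEmbedding x) =
            ∑ x ∈ K.erase i, (g - x) := by
          apply Finset.sum_congr rfl
          intro x hx
          rw [Finset.mem_erase] at hx
          have h2 : x ≠ i + 1 := fun h3 => hi' (h3 ▸ hx.2)
          rw [Equiv.coe_toEmbedding, Equiv.swap_apply_of_ne_of_ne hx.1 h2]
        rw [h1, Equiv.coe_toEmbedding, Equiv.swap_apply_left]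
        omega
      have hmem : ∀ j, j ∈ K.map (Equiv.swap i (i + 1)).toEmbedding ↔
          Equiv.swap i (i + 1) j ∈ K := by
        intro j
        rw [Finset.mem_map]
        constructor
        · rintro ⟨x, hx, rfl⟩
          rwa [Equiv.coe_toEmbedding, Equiv.swap_apply_self]
        · intro hj
          exact ⟨_, hj, by rw [Equiv.coe_toEmbedding, Equiv.swap_apply_self]⟩
      have h1 := ih (K.map (Equiv.swap i (i + 1)).toEmbedding) (fun j hj => by
          rw [hmem] at hj
          have h2 := swap_lt hi (hK _ hj)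
          rwa [Equiv.swap_apply_self] at h2) (by rw [Finset.card_map, hc]) (by omega)
      rw [← h1]
      have nd : ∀ K' : Finset ℕ, (K'.toList.map (Equiv.swap i (i + 1))).Nodup := fun K' =>
        K'.nodup_toList.map (Equiv.injective _)
      constructor
      · intro h
        refine (h.swap L hi).congr L (nd K) (Finset.nodup_toList _) ?_
        ext j
        rw [Finset.toList_toFinset, hmem, List.mem_toFinset, List.mem_map]
        constructor
        · rintro ⟨x, hx, rfl⟩
          rw [Equiv.swap_apply_self]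
          exact Finset.mem_toList.1 hx
        · exact fun hj => ⟨_, Finset.mem_toList.2 hj, Equiv.swap_apply_self _ _ _⟩
      · intro h
        refine (h.swap L hi).congr L (nd _) (Finset.nodup_toList _) ?_
        ext j
        rw [Finset.toList_toFinset, List.mem_toFinset, List.mem_map]
        constructor
        · rintro ⟨x, hx, rfl⟩
          rw [Finset.mem_toList, hmem] at hx
          exact hx
        · intro hj
          refine ⟨Equiv.swap i (i + 1) j, ?_, Equiv.swap_apply_self _ _ _⟩
          rw [Finset.mem_toList, hmem, Equiv.swap_apply_self]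
          exact hj

/-- **If one product of `n` operators vanishes, then all do.** -/
theorem np_all (L : Lk g A B C S) {I I' : List ℕ} (h1 : I.Nodup) (h2 : ∀ i ∈ I, i < g)
    (h : ∀ v, np ρ (I.map A) v = 0) (h1' : I'.Nodup) (h2' : ∀ i ∈ I', i < g)
    (hl : I'.length = I.length) (v : V) : np ρ (I'.map A) v = 0 := by
  have key : ∀ {J : List ℕ}, J.Nodup → (∀ i ∈ J, i < g) → J.length = I.length →
      (NZ ρ A J ↔ NZ ρ A (Finset.Ico (g - I.length) g).toList) := by
    intro J nd lt hlen
    have h3 := nz_last (ρ := ρ) L (n := I.length) _ J.toFinset (fun j hj => lt j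
      (List.mem_toFinset.1 hj)) (by rw [List.toFinset_card_of_nodup nd, hlen]) le_rfl
    rw [← h3]
    constructor
    · exact fun h => h.congr L nd (Finset.nodup_toList _) (by rw [Finset.toList_toFinset])
    · exact fun h => h.congr L (Finset.nodup_toList _) nd (by rw [Finset.toList_toFinset])
  exact (key h1' h2' hl).2 ((key h1 h2 rfl).1 h) v

/-- The form for the first handles. -/
theorem np_all_range (L : Lk g A B C S) {n : ℕ} (hn : n ≤ g)
    (h : ∀ v, np ρ ((List.range n).map A) v = 0) :
    ∀ I : List ℕ, I.Nodup → (∀ i ∈ I, i < g) → I.length = n → ∀ v, np ρ (I.map A) v = 0 :=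
  fun _ h1 h2 h3 => np_all L List.nodup_range (fun i hi => by
    rw [List.mem_range] at hi
    omega) h h1 h2 (by rw [h3, List.length_range])

end Pool.MP_59b15d_al.H95E
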