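import Mathlib

set_option autoImplicit false

/-!
# Unipotent normal subgroups

Let `τ : Q →* R` be an injective homomorphism to a ring and `N` a normal subgroup of `Q` such that
all products of `d` of the elements `τ x - 1`, `x ∈ N`, vanish. If `Q` has no nontrivial abelian
normal subgroup, then `N` is trivial.
-/

namespace Pool.MP_59b15d_al.H95E

variable {Q R : Type*} [Group Q] [Ring R]

/-- The product of the `τ x - 1`. -/
def pq (τ : Q →* R) (l : List Q) : R := (l.map fun x => τ x - 1).prod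

theorem pq_nil (τ : Q →* R) : pq τ [] = 1 := rfl

theorem pq_cons (τ : Q →* R) (x : Q) (l : List Q) : pq τ (x :: l) = (τ x - 1) * pq τ l := by
  rw [pq, List.map_cons, List.prod_cons]
  rfl

theorem pq_append (τ : Q →* R) (l l' : List Q) : pq τ (l ++ l') = pq τ l * pq τ l' := by
  rw [pq, List.map_append, List.prod_append]
  rfl

theorem tau_inv (τ : Q →* R) (q : Q) : τ q * τ q⁻¹ = 1 := by
  rw [← map_mul, mul_inv_cancel, map_one]

theorem tau_inv' (τ : Q →* R) (q : Q) : τ q⁻¹ * τ q = 1 := by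
  rw [← map_mul, inv_mul_cancel, map_one]

/-- Moving a group element across a product. -/
theorem pq_move (τ : Q →* R) (q : Q) (l : List Q) :
    τ q * pq τ l = pq τ (l.map fun y => q * y * q⁻¹) * τ q := by
  induction l with
  | nil => rw [List.map_nil, pq_nil, mul_one, one_mul]
  | cons x l ih =>
    have h1 : τ q * (τ x - 1) = (τ (q * x * q⁻¹) - 1) * τ q := by
      rw [mul_sub, sub_mul, mul_one, one_mul, ← map_mul, ← map_mul]
      congr 2
      group
    rw [List.map_cons, pq_cons, pq_cons, ← mul_assoc, h1, mul_assoc, ih, ← mul_assoc]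

section

variable (τ : Q →* R) (N : Subgroup Q)

/-- The elements `x` of `N` such that `τ x - 1` is annihilated by all products of total length
`i`. -/
def ML (i : ℕ) : Set Q :=
  {x | x ∈ N ∧ ∀ l₁ l₂ : List Q, (∀ y ∈ l₁, y ∈ N) → (∀ y ∈ l₂, y ∈ N) →
    l₁.length + l₂.length = i → pq τ l₁ * (τ x - 1) * pq τ l₂ = 0}

variable {τ N}

theorem ML.succ {i : ℕ} {x : Q} (hx : x ∈ ML τ N i) {l₁ l₂ : List Q} (h1 : ∀ y ∈ l₁, y ∈ N)
    (h2 : ∀ y ∈ l₂, y ∈ N) (h : l₁.length + l₂.length = i + 1) :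
    pq τ l₁ * (τ x - 1) * pq τ l₂ = 0 := by
  rcases l₁ with _ | ⟨a, l₁⟩
  · rcases List.eq_nil_or_concat l₂ with rfl | ⟨l, c, rfl⟩
    · simp at h
    · rw [List.concat_eq_append] at h h2 ⊢
      rw [pq_append, ← mul_assoc, hx.2 [] l h1 (fun y hy => h2 y (by simp [hy])) (by
        rw [List.length_append, List.length_singleton] at h
        rw [List.length_nil] at h ⊢
        omega), zero_mul]
  · rw [pq_cons, mul_assoc, mul_assoc, ← mul_assoc (pq τ l₁), hx.2 l₁ l₂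
      (fun y hy => h1 y (List.mem_cons_of_mem _ hy)) h2 (by rw [List.length_cons] at h; omega),
      mul_zero]

variable (τ N) in
/-- The subgroup. -/
def MS [hN : N.Normal] (i : ℕ) : Subgroup Q where
  carrier := ML τ N i
  one_mem' := ⟨one_mem _, fun l₁ l₂ _ _ _ => by rw [map_one, sub_self, mul_zero, zero_mul]⟩
  mul_mem' := by
    intro x y hx hy
    refine ⟨mul_mem hx.1 hy.1, fun l₁ l₂ h1 h2 h => ?_⟩
    have e : τ (x * y) - 1 = (τ x - 1) * (τ y - 1) + (τ x - 1) + (τ y - 1) := by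
      rw [map_mul]; noncomm_ring
    have e2 : pq τ l₁ * ((τ x - 1) * (τ y - 1)) * pq τ l₂ = 0 := by
      have h3 := ML.succ hx (l₁ := l₁) (l₂ := y :: l₂) h1 (by
        intro z hz
        rcases List.mem_cons.1 hz with rfl | hz
        · exact hy.1
        · exact h2 z hz) (by rw [List.length_cons]; omega)
      rw [pq_cons] at h3
      rw [← h3]
      simp only [mul_assoc]
    rw [e, mul_add, mul_add, add_mul, add_mul, e2, hx.2 l₁ l₂ h1 h2 h, hy.2 l₁ l₂ h1 h2 h,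
      add_zero, add_zero]
  inv_mem' := by
    intro x hx
    refine ⟨inv_mem hx.1, fun l₁ l₂ h1 h2 h => ?_⟩
    have e : τ x⁻¹ - 1 = -((τ x - 1) * τ x⁻¹) := by
      rw [sub_mul, tau_inv, one_mul]
      abel
    have h3 := hx.2 l₁ (l₂.map fun y => x⁻¹ * y * x⁻¹⁻¹) h1 (by
      intro z hz
      obtain ⟨y, hy, rfl⟩ := List.mem_map.1 hz
      exact hN.conj_mem y (h2 y hy) x⁻¹) (by rw [List.length_map]; exact h)
    calc pq τ l₁ * (τ x⁻¹ - 1) * pq τ l₂ = -(pq τ l₁ * (τ x - 1) * (τ x⁻¹ * pq τ l₂)) := by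
          rw [e]; simp only [mul_neg, neg_mul, mul_assoc]
      _ = -(pq τ l₁ * (τ x - 1) * pq τ (l₂.map fun y => x⁻¹ * y * x⁻¹⁻¹) * τ x⁻¹) := by
          rw [pq_move]; simp only [mul_assoc]
      _ = 0 := by rw [h3, zero_mul, neg_zero]

theorem mem_MS [N.Normal] {i : ℕ} {x : Q} : x ∈ MS τ N i ↔ x ∈ ML τ N i := Iff.rfl

instance MS_normal [hN : N.Normal] (i : ℕ) : (MS τ N i).Normal := by
  constructor
  intro x hx q
  rw [mem_MS] at hx ⊢
  refine ⟨hN.conj_mem x hx.1 q, fun l₁ l₂ h1 h2 h => ?_⟩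
  have hc : ∀ l : List Q, (∀ y ∈ l, y ∈ N) → ∀ z ∈ l.map fun y => q⁻¹ * y * q⁻¹⁻¹, z ∈ N := by
    intro l hl z hz
    obtain ⟨y, hy, rfl⟩ := List.mem_map.1 hz
    exact hN.conj_mem y (hl y hy) q⁻¹
  have h3 := hx.2 (l₁.map fun y => q⁻¹ * y * q⁻¹⁻¹) (l₂.map fun y => q⁻¹ * y * q⁻¹⁻¹)
    (hc _ h1) (hc _ h2) (by rw [List.length_map, List.length_map]; exact h)
  have h4 : pq τ l₁ = τ q * pq τ (l₁.map fun y => q⁻¹ * y * q⁻¹⁻¹) * τ q⁻¹ := by
    rw [mul_assoc, ← pq_move, ← mul_assoc, tau_inv, one_mul]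
  have h5 : τ q⁻¹ * pq τ l₂ = pq τ (l₂.map fun y => q⁻¹ * y * q⁻¹⁻¹) * τ q⁻¹ := pq_move τ _ _
  have h6 : τ (q * x * q⁻¹) - 1 = τ q * (τ x - 1) * τ q⁻¹ := by
    rw [map_mul, map_mul, mul_sub, sub_mul, mul_one, tau_inv]
  rw [h4, h6]
  calc τ q * pq τ (l₁.map fun y => q⁻¹ * y * q⁻¹⁻¹) * τ q⁻¹ * (τ q * (τ x - 1) * τ q⁻¹) * pq τ l₂
      = τ q * pq τ (l₁.map fun y => q⁻¹ * y * q⁻¹⁻¹) * (τ q⁻¹ * τ q) * (τ x - 1) *
        (τ q⁻¹ * pq τ l₂) := by simp only [mul_assoc]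
    _ = τ q * (pq τ (l₁.map fun y => q⁻¹ * y * q⁻¹⁻¹) * (τ x - 1) *
        pq τ (l₂.map fun y => q⁻¹ * y * q⁻¹⁻¹)) * τ q⁻¹ := by
        rw [tau_inv', h5]; simp only [mul_assoc, one_mul]
    _ = 0 := by rw [h3, mul_zero, zero_mul]

theorem MS_comm [hN : N.Normal] {i : ℕ} {x y : Q} (hx : x ∈ MS τ N (i + 1)) (hy : y ∈ N) :
    x * y * x⁻¹ * y⁻¹ ∈ MS τ N i := by
  rw [mem_MS] at hx ⊢
  refine ⟨?_, fun l₁ l₂ h1 h2 h => ?_⟩
  · exact mul_mem (hN.conj_mem y hy x) (inv_mem hy)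
  have e : τ (x * y * x⁻¹ * y⁻¹) - 1 =
      ((τ x - 1) * (τ y - 1) - (τ y - 1) * (τ x - 1)) * τ (x⁻¹ * y⁻¹) := by
    have e1 : (τ x - 1) * (τ y - 1) - (τ y - 1) * (τ x - 1) = τ (x * y) - τ (y * x) := by
      rw [map_mul, map_mul]; noncomm_ring
    rw [e1, sub_mul, ← map_mul, ← map_mul]
    have e2 : y * x * (x⁻¹ * y⁻¹) = 1 := by group
    rw [e2, map_one]
    congr 2
    group
  have hc : ∀ z ∈ l₂.map fun w => (x⁻¹ * y⁻¹) * w * (x⁻¹ * y⁻¹)⁻¹, z ∈ N := by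
    intro z hz
    obtain ⟨w, hw, rfl⟩ := List.mem_map.1 hz
    exact hN.conj_mem w (h2 w hw) _
  have h3 := hx.2 l₁ (y :: l₂.map fun w => (x⁻¹ * y⁻¹) * w * (x⁻¹ * y⁻¹)⁻¹) h1 (by
    intro z hz
    rcases List.mem_cons.1 hz with rfl | hz
    · exact hy
    · exact hc z hz) (by rw [List.length_cons, List.length_map]; omega)
  have h4 := hx.2 (l₁ ++ [y]) (l₂.map fun w => (x⁻¹ * y⁻¹) * w * (x⁻¹ * y⁻¹)⁻¹) (by
    intro z hz
    rcases List.mem_append.1 hz with hz | hz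
    · exact h1 z hz
    · rw [List.mem_singleton] at hz
      rw [hz]
      exact hy) hc (by rw [List.length_append, List.length_map, List.length_singleton]; omega)
  rw [pq_cons] at h3
  rw [pq_append, pq_cons, pq_nil, mul_one] at h4
  rw [e]
  calc pq τ l₁ * (((τ x - 1) * (τ y - 1) - (τ y - 1) * (τ x - 1)) * τ (x⁻¹ * y⁻¹)) * pq τ l₂
      = pq τ l₁ * ((τ x - 1) * (τ y - 1) - (τ y - 1) * (τ x - 1)) *
        (τ (x⁻¹ * y⁻¹) * pq τ l₂) := by simp only [mul_assoc]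
    _ = (pq τ l₁ * (τ x - 1) * ((τ y - 1) *
        pq τ (l₂.map fun w => (x⁻¹ * y⁻¹) * w * (x⁻¹ * y⁻¹)⁻¹)) -
        pq τ l₁ * (τ y - 1) * (τ x - 1) *
        pq τ (l₂.map fun w => (x⁻¹ * y⁻¹) * w * (x⁻¹ * y⁻¹)⁻¹)) * τ (x⁻¹ * y⁻¹) := by
        rw [pq_move]; noncomm_ring
    _ = 0 := by rw [h3, h4, sub_zero, zero_mul]

/-- **A unipotent normal subgroup of a group without abelian normal subgroups is trivial.** -/
theorem unip_trivial [hN : N.Normal] (hτ : Function.Injective τ)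
    (hA : ∀ A : Subgroup Q, A.Normal → (∀ x ∈ A, ∀ y ∈ A, x * y = y * x) → A = ⊥) {d : ℕ}
    (hd : ∀ l : List Q, (∀ y ∈ l, y ∈ N) → l.length = d → pq τ l = 0) : N = ⊥ := by
  have key : ∀ i, MS τ N i = ⊥ := by
    intro i
    induction i with
    | zero =>
      rw [eq_bot_iff]
      intro x hx
      have h1 := hx.2 [] [] (by simp) (by simp) rfl
      rw [pq_nil, one_mul, mul_one, sub_eq_zero] at h1
      rw [Subgroup.mem_bot]
      apply hτ
      rw [h1, map_one]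
    | succ i ih =>
      refine hA _ inferInstance fun x hx y hy => ?_
      have h1 := MS_comm hx (mem_MS.1 hy).1
      rw [ih, Subgroup.mem_bot] at h1
      calc x * y = (x * y * x⁻¹ * y⁻¹) * (y * x) := by group
        _ = y * x := by rw [h1, one_mul]
  rw [eq_bot_iff]
  intro x hx
  rcases d with _ | d
  · have h1 := hd [] (by simp) rfl
    rw [pq_nil] at h1
    rw [Subgroup.mem_bot]
    apply hτ
    rw [← mul_one (τ x), ← mul_one (τ 1), h1, mul_zero, mul_zero]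
  · rw [← key d, mem_MS]
    refine ⟨hx, fun l₁ l₂ h1 h2 h => ?_⟩
    have h3 := hd (l₁ ++ (x :: l₂)) (by
      intro z hz
      rcases List.mem_append.1 hz with hz | hz
      · exact h1 z hz
      · rcases List.mem_cons.1 hz with rfl | hz
        · exact hx
        · exact h2 z hz) (by rw [List.length_append, List.length_cons]; omega)
    rwa [pq_append, pq_cons, ← mul_assoc] at h3

end

end Pool.MP_59b15d_al.H95E
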