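import Mathlib
import Pool.Agent.H.MP_59b15d_al.h95e.Rad
import Pool.Agent.H.MP_59b15d_al.h52e.Fin
import Pool.Agent.H.MP_59b15d_al.lin.SipKer
import Pool.Agent.H.MP_59b15d_al.h11c.Tree

set_option autoImplicit false

/-!
# Quotients of the mapping class group in projective linear groups

If a quotient `Q` of the mapping class group has no nontrivial abelian normal subgroup and embeds
in the automorphism group of the algebra of endomorphisms of a space of small dimension, then the
Torelli group has trivial image in `Q`.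
-/

namespace Pool.MP_59b15d_al.H95E

universe u v w

open Module
open Pool.MP_59b15d_al.H24T Pool.MP_59b15d_al.H76R Pool.MP_59b15d_al.H73E
open Pool.MP_59b15d_al.H60G Pool.MP_59b15d_al.H40L
open Pool.Agent.H.MP_59b15d_al.SP (cls H1 csp_H1)
open Pool.Agent.H.MP_59b15d_al.Lin (exists_char_lev dv_of_innMod)
open Pool.MP_59b15d_al.H76 (StdGen InnMod)
open Pool.Agent.H.MP_59b15d_al.H52E (Good Tor mem_Tor good_unip)

variable {F : Type u} [Field F] {V : Type v} [AddCommGroup V] [Module F V]

/-- The action on the algebra of endomorphisms. -/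
def adj (F : Type u) [Field F] (V : Type v) [AddCommGroup V] [Module F V] :
    (Module.End F V ≃ₐ[F] Module.End F V) →* Module.End F (Module.End F V) where
  toFun s := s.toLinearMap
  map_one' := rfl
  map_mul' _ _ := rfl

theorem adj_inj : Function.Injective (adj F V) := fun s t hst => by
  ext x : 1
  exact LinearMap.congr_fun hst x

variable {m : ℕ} {G : Type w} [Group G] {a b : Fin m → G} (h : IsSurf a b) {D : ℕ}

/-- **Theorem P.** -/
theorem proj_torelli [FiniteDimensional F V] (hG : Good.{u, v, w} h F D)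
    (hD : finrank F V ^ 2 ≤ D) {Q : Type*} [Group Q] (π : MCG a b →* Q)
    (hπ : Function.Surjective π) (σ : Q →* (Module.End F V ≃ₐ[F] Module.End F V))
    (hσ : Function.Injective σ)
    (hA : ∀ A : Subgroup Q, A.Normal → (∀ x ∈ A, ∀ y ∈ A, x * y = y * x) → A = ⊥)
    {φ : MCG a b} (hφ : ∀ x, cls h ((φ : MulAut G) x) = cls h x) : π φ = 1 := by
  obtain ⟨N, hN⟩ : ∃ N, N = (Tor h).map π := ⟨_, rfl⟩
  have hNn : N.Normal := by
    rw [hN]
    exact Subgroup.Normal.map inferInstance π hπ
  have hfr : finrank F (Module.End F V) = finrank F V ^ 2 := by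
    rw [Module.finrank_linearMap, sq]
  have h1 : N = ⊥ := by
    refine unip_trivial (τ := (adj F V).comp σ) (fun x y hxy => hσ (adj_inj hxy)) hA
      (d := finrank F (Module.End F V)) ?_
    intro l hl hlen
    obtain ⟨l', hl', rfl⟩ : ∃ l' : List (MCG a b), (∀ φ ∈ l', φ ∈ Tor h) ∧ l'.map π = l := by
      clear hlen
      induction l with
      | nil => exact ⟨[], by simp, rfl⟩
      | cons x l ih =>
        obtain ⟨l', h2, h3⟩ := ih fun y hy => hl y (List.mem_cons_of_mem x hy)
        have h4 := hl x List.mem_cons_self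
        rw [hN] at h4
        obtain ⟨ψ, hψ, h5⟩ := h4
        refine ⟨ψ :: l', ?_, by rw [List.map_cons, h3, h5]⟩
        intro y hy
        rcases List.mem_cons.1 hy with rfl | hy
        · exact hψ
        · exact h2 y hy
    have h2 := good_unip h hG (Module.End F V) (((adj F V).comp σ).comp π)
      (by rw [hfr]; exact hD) l' (fun ψ hψ => (mem_Tor h).1 (hl' ψ hψ))
      (by rw [List.length_map] at hlen; exact hlen.ge)
    rw [pq, List.map_map]
    exact h2
  have h2 : π φ ∈ N := by
    rw [hN]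
    exact ⟨φ, (mem_Tor h).2 hφ, rfl⟩
  rw [h1] at h2
  exact Subgroup.mem_bot.1 h2

/-- Every subgroup of finite index which contains the kernel of such a quotient is a congruence
subgroup. -/
theorem proj_cong [FiniteDimensional F V] (hm : 3 ≤ m) (hG : Good.{u, v, w} h F D)
    (hD : finrank F V ^ 2 ≤ D) {Q : Type*} [Group Q] (π : MCG a b →* Q)
    (hπ : Function.Surjective π) (σ : Q →* (Module.End F V ≃ₐ[F] Module.End F V))
    (hσ : Function.Injective σ)
    (hA : ∀ A : Subgroup Q, A.Normal → (∀ x ∈ A, ∀ y ∈ A, x * y = y * x) → A = ⊥)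
    (H : Subgroup (MulAut G)) (hH : H.relIndex (MCG a b) ≠ 0)
    (hker : ∀ f : MCG a b, π f = 1 → (f : MulAut G) ∈ H) :
    ∃ Γ : Subgroup G, Γ.Characteristic ∧ Γ.FiniteIndex ∧ ∀ φ ∈ MCG a b, InnMod Γ φ → φ ∈ H := by
  have h1 : ∀ f ∈ MCG a b, H1 h f = 1 → f ∈ H := by
    intro f hf hf1
    refine hker ⟨f, hf⟩ (proj_torelli h hG hD π hπ σ hσ hA ?_)
    intro x
    have h2 := congrArg (fun A => A (cls h x)) hf1
    simpa [Pool.Agent.H.MP_59b15d_al.SP.H1_cls] using h2
  obtain ⟨n, hn, h2⟩ := csp_H1 h hm H hH h1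
  obtain ⟨k, rfl⟩ : ∃ k : ℕ, n = k := ⟨n.toNat, (Int.toNat_of_nonneg hn.le).symm⟩
  obtain ⟨Γ, hc, hf, hle⟩ := exists_char_lev h (n := k) (by omega)
  exact ⟨Γ, hc, hf, fun φ hφ hi => h2 φ hφ (dv_of_innMod h hle hi)⟩

/-- **Theorem P** for a homomorphism to the projective linear group. -/
theorem proj_torelli_range [FiniteDimensional F V] (hG : Good.{u, v, w} h F D)
    (hD : finrank F V ^ 2 ≤ D) (σ : MCG a b →* (Module.End F V ≃ₐ[F] Module.End F V))
    (hA : ∀ A : Subgroup σ.range, A.Normal → (∀ x ∈ A, ∀ y ∈ A, x * y = y * x) → A = ⊥)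
    {φ : MCG a b} (hφ : ∀ x, cls h ((φ : MulAut G) x) = cls h x) : σ φ = 1 := by
  have h1 := proj_torelli h hG hD σ.rangeRestrict σ.rangeRestrict_surjective σ.range.subtype
    Subtype.val_injective hA hφ
  exact congrArg Subtype.val h1

/-- The same for the congruence subgroups. -/
theorem proj_cong_range [FiniteDimensional F V] (hm : 3 ≤ m) (hG : Good.{u, v, w} h F D)
    (hD : finrank F V ^ 2 ≤ D) (σ : MCG a b →* (Module.End F V ≃ₐ[F] Module.End F V))
    (hA : ∀ A : Subgroup σ.range, A.Normal → (∀ x ∈ A, ∀ y ∈ A, x * y = y * x) → A = ⊥)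
    (H : Subgroup (MulAut G)) (hH : H.relIndex (MCG a b) ≠ 0)
    (hker : ∀ f : MCG a b, σ f = 1 → (f : MulAut G) ∈ H) :
    ∃ Γ : Subgroup G, Γ.Characteristic ∧ Γ.FiniteIndex ∧ ∀ φ ∈ MCG a b, InnMod Γ φ → φ ∈ H :=
  proj_cong h hm hG hD σ.rangeRestrict σ.rangeRestrict_surjective σ.range.subtype
    Subtype.val_injective hA H hH fun f hf => hker f (congrArg Subtype.val hf)

/-- A nonabelian simple group has no nontrivial abelian normal subgroup. -/
theorem simple_noAb {Q : Type*} [Group Q] [IsSimpleGroup Q] (hQ : ∃ x y : Q, x * y ≠ y * x)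
    (A : Subgroup Q) (hA : A.Normal) (hc : ∀ x ∈ A, ∀ y ∈ A, x * y = y * x) : A = ⊥ := by
  rcases hA.eq_bot_or_eq_top with h1 | h1
  · exact h1
  · obtain ⟨x, y, hxy⟩ := hQ
    exact absurd (hc x (by rw [h1]; trivial) y (by rw [h1]; trivial)) hxy

end Pool.MP_59b15d_al.H95E
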