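import Mathlib
import Pool.Agent.H.MP_59b15d_al.h46u.Inst
import Pool.Agent.H.MP_59b15d_al.lin.Blk
import Pool.Agent.H.MP_59b15d_al.deg.Alpha

set_option autoImplicit false
set_option linter.unusedSimpArgs false

/-!
# The relations of the generators of the mapping class group
-/

namespace Pool.MP_59b15d_al.H95E

open Pool.MP_59b15d_al.H93E Pool.MP_59b15d_al.H46U
open Pool.MP_59b15d_al.H24T Pool.MP_59b15d_al.H76R Pool.MP_59b15d_al.H73E
open Pool.MP_59b15d_al.H60G Pool.MP_59b15d_al.H40L
open Pool.Agent.H.MP_59b15d_al.Deg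
open Pool.Agent.H.MP_59b15d_al.Lin (TrA_mem TrB_mem TrC_mem)

section

variable {m : ℕ} {G : Type*} [Group G] {a b : Fin m → G} (h : IsSurf a b)
  {i j : Fin m} (hij : (j : ℕ) = i + 1)

theorem sw_TAi : SW h i j hij * TA h i = TA h j * SW h i j hij := by
  have n1 := ne_of_succ hij
  apply aut_ext h
  · intro l
    by_cases h1 : l = i
    · subst h1
      simp only [MulAut.mul_apply, TA_a, SW_ai, map_mul, map_inv, TA_b, TA_b_ne h n1,
        TA_b_ne h n1.symm]
    · by_cases h2 : l = j
      · subst h2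
        simp only [MulAut.mul_apply, TA_a, SW_aj]
      · simp only [MulAut.mul_apply, TA_a, SW_a_ne h hij h1 h2]
  · intro l
    by_cases h1 : l = i
    · subst h1
      simp only [MulAut.mul_apply, TA_a, SW_ai, SW_bi, map_mul, map_inv, TA_b, TA_b_ne h n1,
        TA_b_ne h n1.symm]
      group
    · by_cases h2 : l = j
      · subst h2
        simp only [MulAut.mul_apply, TA_b, map_mul, SW_aj, SW_bj, TA_b_ne h n1,
          TA_b_ne h n1.symm]
      · simp only [MulAut.mul_apply, TA_b_ne h h1, TA_b_ne h h2, SW_b_ne h hij h1 h2]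

theorem sw_TAj : SW h i j hij * TA h j = TA h i * SW h i j hij := by
  have n1 := ne_of_succ hij
  apply aut_ext h
  · intro l
    by_cases h1 : l = i
    · subst h1
      simp only [MulAut.mul_apply, TA_a, SW_ai, map_mul, map_inv, TA_b, TA_b_ne h n1]
      group
    · by_cases h2 : l = j
      · subst h2
        simp only [MulAut.mul_apply, TA_a, SW_aj]
      · simp only [MulAut.mul_apply, TA_a, SW_a_ne h hij h1 h2]
  · intro l
    by_cases h1 : l = i
    · subst h1
      simp only [MulAut.mul_apply, TA_a, SW_bi, map_mul, map_inv, TA_b, TA_b_ne h n1,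
        TA_b_ne h n1.symm]
      group
    · by_cases h2 : l = j
      · subst h2
        simp only [MulAut.mul_apply, TA_b, map_mul, SW_aj, SW_bj]
      · simp only [MulAut.mul_apply, TA_b_ne h h1, TA_b_ne h h2, SW_b_ne h hij h1 h2]

theorem sw_TBi : SW h i j hij * TB h i = TB h j * SW h i j hij := by
  have n1 := ne_of_succ hij
  apply aut_ext h
  · intro l
    by_cases h1 : l = i
    · subst h1
      simp only [MulAut.mul_apply, TB_a, TB_b, SW_ai, SW_bi, map_mul, map_inv, TB_a_ne h n1,
        TB_a_ne h n1.symm]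
      group
    · by_cases h2 : l = j
      · subst h2
        simp only [MulAut.mul_apply, TB_b, SW_aj, TB_a_ne h n1, TB_a_ne h n1.symm]
      · simp only [MulAut.mul_apply, TB_a_ne h h1, TB_a_ne h h2, SW_a_ne h hij h1 h2]
  · intro l
    by_cases h1 : l = i
    · subst h1
      simp only [MulAut.mul_apply, TB_b, SW_bi, map_mul, map_inv, TB_a_ne h n1,
        TB_a_ne h n1.symm]
    · by_cases h2 : l = j
      · subst h2
        simp only [MulAut.mul_apply, TB_b, SW_bj]
      · simp only [MulAut.mul_apply, TB_b, SW_b_ne h hij h1 h2]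

theorem sw_TBj : SW h i j hij * TB h j = TB h i * SW h i j hij := by
  have n1 := ne_of_succ hij
  apply aut_ext h
  · intro l
    by_cases h1 : l = i
    · subst h1
      simp only [MulAut.mul_apply, TB_a, TB_b, SW_ai, SW_bi, map_mul, map_inv, TB_a_ne h n1,
        TB_a_ne h n1.symm]
      group
    · by_cases h2 : l = j
      · subst h2
        simp only [MulAut.mul_apply, TB_a, SW_aj, SW_bj, map_mul, map_inv]
      · simp only [MulAut.mul_apply, TB_a_ne h h1, TB_a_ne h h2, SW_a_ne h hij h1 h2]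
  · intro l
    by_cases h1 : l = i
    · subst h1
      simp only [MulAut.mul_apply, TB_a, TB_b, SW_bi, map_mul, map_inv, TB_a_ne h n1,
        TB_a_ne h n1.symm]
      group
    · by_cases h2 : l = j
      · subst h2
        simp only [MulAut.mul_apply, TB_b, SW_bj]
      · simp only [MulAut.mul_apply, TB_b, SW_b_ne h hij h1 h2]

/-- The exchange commutes with the twists of the other handles. -/
theorem trS_comm {k : ℕ} (hk : k + 1 < m) {lo hi : ℕ} {x : MulAut G} (hx : x ∈ MR h lo hi)
    (hd : hi ≤ k ∨ k + 2 ≤ lo) : Commute (TrS h k) x := by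
  rw [TrS_lt h hk]
  rcases hd with hd | hd
  · exact (Pool.Agent.H.MP_59b15d_al.Lin.MR_comm h hd hx (SW_mem h (i := ⟨k, by omega⟩)
      (j := ⟨k + 1, hk⟩) rfl)).symm
  · exact Pool.Agent.H.MP_59b15d_al.Lin.MR_comm h hd (SW_mem h (i := ⟨k, by omega⟩)
      (j := ⟨k + 1, hk⟩) rfl) hx

theorem TrA_ge {k : ℕ} (hk : m ≤ k) : TrA h k = 1 := dif_neg (by omega)
theorem TrB_ge {k : ℕ} (hk : m ≤ k) : TrB h k = 1 := dif_neg (by omega)
theorem TrC_ge {k : ℕ} (hk : m ≤ k + 1) : TrC h k = 1 := dif_neg (by omega)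

/-- All relations, from the Garside identity. -/
theorem lk_of (hgar : ∀ (i j : Fin m) (hij : (j : ℕ) = i + 1),
    TB h i * (TA h i)⁻¹ * (CC h i j hij * TB h i) * (TB h j * CC h i j hij) *
      ((TA h j)⁻¹ * TB h j) * ((TA h j)⁻¹ * (CC h i j hij * TB h i * (TA h i)⁻¹ *
        CC h i j hij * TB h i * CC h i j hij)) = SW h i j hij * (IO h i * IO h j)) :
    Lk m (TrA h) (TrB h) (TrC h) (TrS h) where
  AA := by
    intro i j
    by_cases hi : i < m
    · by_cases hj : j < m
      · exact (treeGrp h).cAA i j hi hj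
      · rw [TrA_ge h (by omega : m ≤ j)]; exact Commute.one_right _
    · rw [TrA_ge h (by omega : m ≤ i)]; exact Commute.one_left _
  AC := by
    intro i j
    by_cases hi : i < m
    · by_cases hj : j + 1 < m
      · exact (treeGrp h).cAC i j hi hj
      · rw [TrC_ge h (by omega : m ≤ j + 1)]; exact Commute.one_right _
    · rw [TrA_ge h (by omega : m ≤ i)]; exact Commute.one_left _
  CC := by
    intro i j
    by_cases hi : i + 1 < m
    · by_cases hj : j + 1 < m
      · exact (treeGrp h).cCC i j hi hj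
      · rw [TrC_ge h (by omega : m ≤ j + 1)]; exact Commute.one_right _
    · rw [TrC_ge h (by omega : m ≤ i + 1)]; exact Commute.one_left _
  AB := by
    intro i j hij
    by_cases hi : i < m
    · by_cases hj : j < m
      · exact (treeGrp h).cAB i j hi hj hij
      · rw [TrB_ge h (by omega : m ≤ j)]; exact Commute.one_right _
    · rw [TrA_ge h (by omega : m ≤ i)]; exact Commute.one_left _
  BB := by
    intro i j
    by_cases hi : i < m
    · by_cases hj : j < m
      · exact (treeGrp h).cBB i j hi hj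
      · rw [TrB_ge h (by omega : m ≤ j)]; exact Commute.one_right _
    · rw [TrB_ge h (by omega : m ≤ i)]; exact Commute.one_left _
  BC := by
    intro i j h1 h2
    by_cases hi : i < m
    · by_cases hj : j + 1 < m
      · exact (treeGrp h).cBC i j hi hj h1 h2
      · rw [TrC_ge h (by omega : m ≤ j + 1)]; exact Commute.one_right _
    · rw [TrB_ge h (by omega : m ≤ i)]; exact Commute.one_left _
  brA := by
    intro i
    by_cases hi : i < m
    · exact (treeGrp h).AB i hi
    · rw [TrA_ge h (by omega : m ≤ i), TrB_ge h (by omega : m ≤ i)]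
  brC := fun i hi => (treeGrp h).BC i hi
  brC' := fun i hi => ((treeGrp h).CB i hi).symm
  SA := by
    intro i hi
    rw [TrS_lt h hi, TrA_lt h (by omega : i < m), TrA_lt h hi]
    exact (show SemiconjBy _ _ _ from sw_TAi h (i := ⟨i, by omega⟩) (j := ⟨i + 1, hi⟩) rfl).inv_right
  SA' := by
    intro i hi
    rw [TrS_lt h hi, TrA_lt h (by omega : i < m), TrA_lt h hi]
    exact (show SemiconjBy _ _ _ from sw_TAj h (i := ⟨i, by omega⟩) (j := ⟨i + 1, hi⟩) rfl).inv_right
  SB := by
    intro i hi
    rw [TrS_lt h hi, TrB_lt h (by omega : i < m), TrB_lt h hi]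
    exact sw_TBi h (i := ⟨i, by omega⟩) (j := ⟨i + 1, hi⟩) rfl
  SB' := by
    intro i hi
    rw [TrS_lt h hi, TrB_lt h (by omega : i < m), TrB_lt h hi]
    exact sw_TBj h (i := ⟨i, by omega⟩) (j := ⟨i + 1, hi⟩) rfl
  SAo := by
    intro i j h1 h2
    by_cases hi : i + 1 < m
    · exact trS_comm h hi (TrA_mem h (lo := j) (hi := j + 1) le_rfl (by omega)) (by omega)
    · rw [TrS_ge h (by omega)]; exact Commute.one_left _
  SBo := by
    intro i j h1 h2
    by_cases hi : i + 1 < m
    · exact trS_comm h hi (TrB_mem h (lo := j) (hi := j + 1) le_rfl (by omega)) (by omega)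
    · rw [TrS_ge h (by omega)]; exact Commute.one_left _
  SCo := by
    intro i j h1 h2 h3
    by_cases hi : i + 1 < m
    · exact trS_comm h hi (TrC_mem h (lo := j) (hi := j + 2) le_rfl (by omega)) (by omega)
    · rw [TrS_ge h (by omega)]; exact Commute.one_left _
  SSC := by
    intro i hi
    rw [TrS_lt h (by omega : i + 1 < m), TrS_lt h (by omega : i + 1 + 1 < m),
      TrC_lt h (by omega : i + 1 < m), TrC_lt h (by omega : i + 1 + 1 < m)]
    exact Pool.Agent.H.MP_59b15d_al.Deg.SSC' h (i := ⟨i, by omega⟩) (j := ⟨i + 1, by omega⟩)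
      (k := ⟨i + 1 + 1, hi⟩) rfl rfl
  SSC' := by
    intro i hi
    rw [TrS_lt h (by omega : i + 1 < m), TrS_lt h (by omega : i + 1 + 1 < m),
      TrC_lt h (by omega : i + 1 < m), TrC_lt h (by omega : i + 1 + 1 < m)]
    exact Pool.Agent.H.MP_59b15d_al.Deg.SSC h (i := ⟨i, by omega⟩) (j := ⟨i + 1, by omega⟩)
      (k := ⟨i + 1 + 1, hi⟩) rfl rfl
  gar := by
    intro i hi
    have h1 := hgar ⟨i, by omega⟩ ⟨i + 1, hi⟩ rfl
    rw [TrS_lt h hi, TrC_lt h hi, TrA_lt h (by omega : i < m), TrA_lt h hi,
      TrB_lt h (by omega : i < m), TrB_lt h hi, ← IO_eq, ← IO_eq]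
    exact h1
  Cout := fun i hi => TrC_ge h hi

end

end Pool.MP_59b15d_al.H95E
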